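import Pool.Agent.H86.LP.Hier

/-!
# The Bruhat–Tits tree of a filtered ring
-/

set_option autoImplicit false

namespace Pool.Agent.H86.LP

open Pool.Agent.H34.PT (Deg)
open Pool.Agent.H86.BC2 (mul_ent)
open Matrix

/-- `F` is the filtration of the ring `R` by a discrete valuation: `F n` are the elements of degree at
most `n` -/
structure Filt {R : Type} [Ring R] (F : ℤ → AddSubgroup R) : Prop where
  mono : ∀ n m, n ≤ m → F n ≤ F m
  mul : ∀ n m a b, a ∈ F n → b ∈ F m → a * b ∈ F (n + m)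
  one : (1 : R) ∈ F 0
  one' : (1 : R) ∉ F (-1)
  dom : ∀ n m a b, a ∈ F n → b ∈ F m → a * b ∈ F (n + m - 1) → a ∈ F (n - 1) ∨ b ∈ F (m - 1)

variable {R : Type} [Ring R] {F : ℤ → AddSubgroup R}

/-- the entries have degree at most `n` -/
def Bd (F : ℤ → AddSubgroup R) (n : ℤ) (g : GL (Fin 2) R) : Prop := ∀ i j, g.1 i j ∈ F n

/-- the entries of column `j` have degree at most `n` -/
def Cl (F : ℤ → AddSubgroup R) (j : Fin 2) (n : ℤ) (g : GL (Fin 2) R) : Prop := ∀ i, g.1 i j ∈ F n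

namespace Filt

variable (D : Filt F)

include D

theorem mul' {n m l : ℤ} {a b : R} (ha : a ∈ F n) (hb : b ∈ F m) (h : n + m ≤ l) : a * b ∈ F l :=
  D.mono _ _ h (D.mul _ _ _ _ ha hb)

theorem dom' {n m l : ℤ} {a b : R} (ha : a ∈ F n) (hb : b ∈ F m) (h : a * b ∈ F l)
    (hl : l + 1 ≤ n + m) : a ∈ F (n - 1) ∨ b ∈ F (m - 1) :=
  D.dom n m a b ha hb (D.mono _ _ (by omega) h)

omit D in
theorem bd_cl {n : ℤ} {g : GL (Fin 2) R} : Bd F n g ↔ Cl F 0 n g ∧ Cl F 1 n g := by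
  constructor
  · exact fun h => ⟨fun i => h i 0, fun i => h i 1⟩
  · rintro ⟨h0, h1⟩ i j
    fin_cases j
    · exact h0 i
    · exact h1 i

omit D in
theorem mulinv (g : GL (Fin 2) R) : (g * g⁻¹).1 = 1 := by rw [mul_inv_cancel]; rfl

omit D in
theorem invmul (g : GL (Fin 2) R) : (g⁻¹ * g).1 = 1 := by rw [inv_mul_cancel]; rfl

end Filt

/-- the invertible matrices over the ring of the elements of degree at most zero -/
def A0 (D : Filt F) : Subgroup (GL (Fin 2) R) where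
  carrier := {g | Bd F 0 g ∧ Bd F 0 g⁻¹}
  one_mem' := by
    have h1 : Bd F 0 (1 : GL (Fin 2) R) := by
      intro i j
      show (1 : Matrix (Fin 2) (Fin 2) R) i j ∈ F 0
      rw [Matrix.one_apply]
      split_ifs
      · exact D.one
      · exact (F 0).zero_mem
    refine ⟨h1, ?_⟩
    rw [inv_one]
    exact h1
  mul_mem' := by
    have h1 : ∀ {g h : GL (Fin 2) R}, Bd F 0 g → Bd F 0 h → Bd F 0 (g * h) := by
      intro g h hg hh i j
      rw [mul_ent]
      exact (F 0).add_mem (D.mul' (hg i 0) (hh 0 j) (by omega))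
        (D.mul' (hg i 1) (hh 1 j) (by omega))
    rintro g h ⟨a, b⟩ ⟨c, d⟩
    refine ⟨h1 a c, ?_⟩
    rw [_root_.mul_inv_rev]
    exact h1 d b
  inv_mem' := by
    rintro g ⟨a, b⟩
    exact ⟨b, by rw [inv_inv]; exact a⟩

/-- the degrees of the entries of a matrix in the stabilizer of the second vertex -/
def EE (F : ℤ → AddSubgroup R) (g : GL (Fin 2) R) : Prop :=
  g.1 0 0 ∈ F 0 ∧ g.1 0 1 ∈ F 1 ∧ g.1 1 0 ∈ F (-1) ∧ g.1 1 1 ∈ F 0

/-- the stabilizer of the second vertex -/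
def E0 (D : Filt F) : Subgroup (GL (Fin 2) R) where
  carrier := {g | EE F g ∧ EE F g⁻¹}
  one_mem' := by
    have h1 : EE F (1 : GL (Fin 2) R) := by
      refine ⟨?_, ?_, ?_, ?_⟩
      · exact D.one
      · exact (F 1).zero_mem
      · exact (F (-1)).zero_mem
      · exact D.one
    refine ⟨h1, ?_⟩
    rw [inv_one]
    exact h1
  mul_mem' := by
    have h1 : ∀ {g h : GL (Fin 2) R}, EE F g → EE F h → EE F (g * h) := by
      rintro g h ⟨g0, g1, g2, g3⟩ ⟨h0, h1, h2, h3⟩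
      refine ⟨?_, ?_, ?_, ?_⟩ <;> rw [mul_ent]
      · exact (F 0).add_mem (D.mul' g0 h0 (by omega)) (D.mul' g1 h2 (by omega))
      · exact (F 1).add_mem (D.mul' g0 h1 (by omega)) (D.mul' g1 h3 (by omega))
      · exact (F (-1)).add_mem (D.mul' g2 h0 (by omega)) (D.mul' g3 h2 (by omega))
      · exact (F 0).add_mem (D.mul' g2 h1 (by omega)) (D.mul' g3 h3 (by omega))
    rintro g h ⟨a, b⟩ ⟨c, d⟩
    refine ⟨h1 a c, ?_⟩
    rw [_root_.mul_inv_rev]
    exact h1 d b
  inv_mem' := by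
    rintro g ⟨a, b⟩
    exact ⟨b, by rw [inv_inv]; exact a⟩

/-- the group generated by the two stabilizers -/
def T0 (D : Filt F) : Subgroup (GL (Fin 2) R) := Subgroup.closure ((A0 D : Set (GL (Fin 2) R)) ∪ E0 D)

namespace Filt

variable (D : Filt F)

theorem bd_mul {n : ℤ} {g a : GL (Fin 2) R} (hg : Bd F n g) (ha : a ∈ A0 D) : Bd F n (g * a) := by
  intro i j
  rw [mul_ent]
  exact (F n).add_mem (D.mul' (hg i 0) (ha.1 0 j) (by omega))
    (D.mul' (hg i 1) (ha.1 1 j) (by omega))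

theorem bd_iff {n : ℤ} {g a : GL (Fin 2) R} (ha : a ∈ A0 D) : Bd F n (g * a) ↔ Bd F n g := by
  refine ⟨fun h => ?_, fun h => D.bd_mul h ha⟩
  have h1 := D.bd_mul h ((A0 D).inv_mem ha)
  rwa [mul_inv_cancel_right] at h1

theorem cl_mul {n : ℤ} {g e : GL (Fin 2) R} (h0 : Cl F 0 (n - 1) g) (h1 : Cl F 1 n g)
    (he : e ∈ E0 D) : Cl F 0 (n - 1) (g * e) ∧ Cl F 1 n (g * e) := by
  obtain ⟨⟨e0, e1, e2, e3⟩, -⟩ := he
  constructor
  · intro i
    rw [mul_ent]
    exact (F _).add_mem (D.mul' (h0 i) e0 (by omega)) (D.mul' (h1 i) e2 (by omega))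
  · intro i
    rw [mul_ent]
    exact (F _).add_mem (D.mul' (h0 i) e1 (by omega)) (D.mul' (h1 i) e3 (by omega))

theorem cl_iff {n : ℤ} {g e : GL (Fin 2) R} (he : e ∈ E0 D) :
    (Cl F 0 (n - 1) (g * e) ∧ Cl F 1 n (g * e)) ↔ (Cl F 0 (n - 1) g ∧ Cl F 1 n g) := by
  refine ⟨fun h => ?_, fun h => D.cl_mul h.1 h.2 he⟩
  have h1 := D.cl_mul h.1 h.2 ((E0 D).inv_mem he)
  rwa [mul_inv_cancel_right] at h1

/-- the first column of an invertible matrix over the ring of the elements of degree at most zero -/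
theorem not_cl {a : GL (Fin 2) R} (ha : a ∈ A0 D) : ¬ Cl F 0 (-1) a := by
  intro h
  apply D.one'
  have h1 := congrFun (congrFun (invmul a) 0) 0
  rw [mul_ent] at h1
  rw [Matrix.one_apply_eq] at h1
  rw [← h1]
  exact (F _).add_mem (D.mul' (ha.2 0 0) (h 0) (by omega)) (D.mul' (ha.2 0 1) (h 1) (by omega))

theorem mem_E {a : GL (Fin 2) R} (ha : a ∈ A0 D) (h : a.1 1 0 ∈ F (-1)) : a ∈ E0 D := by
  have h2 : (a⁻¹).1 1 0 ∈ F (-1) := by
    have h3 := congrFun (congrFun (mulinv a) 1) 0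
    rw [mul_ent, Matrix.one_apply_ne (by decide)] at h3
    have h4 : a.1 1 1 * (a⁻¹).1 1 0 ∈ F (-1) := by
      have h5 : a.1 1 1 * (a⁻¹).1 1 0 = -(a.1 1 0 * (a⁻¹).1 0 0) := eq_neg_of_add_eq_zero_right h3
      rw [h5]
      exact (F _).neg_mem (D.mul' h (ha.2 0 0) (by omega))
    rcases D.dom' (ha.1 1 1) (ha.2 1 0) h4 (by omega) with h5 | h5
    · exfalso
      apply D.one'
      have h6 := congrFun (congrFun (mulinv a) 1) 1
      rw [mul_ent, Matrix.one_apply_eq] at h6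
      rw [← h6]
      exact (F _).add_mem (D.mul' h (ha.2 0 1) (by omega)) (D.mul' h5 (ha.2 1 1) (by omega))
    · exact h5
  exact ⟨⟨ha.1 0 0, D.mono _ _ (by omega) (ha.1 0 1), h, ha.1 1 1⟩,
    ⟨ha.2 0 0, D.mono _ _ (by omega) (ha.2 0 1), h2, ha.2 1 1⟩⟩

theorem mem_A {e : GL (Fin 2) R} (he : e ∈ E0 D) (h : e.1 0 1 ∈ F 0) : e ∈ A0 D := by
  obtain ⟨⟨e0, e1, e2, e3⟩, ⟨b0, b1, b2, b3⟩⟩ := he
  have h2 : (e⁻¹).1 0 1 ∈ F 0 := by
    have h3 := congrFun (congrFun (mulinv e) 0) 1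
    rw [mul_ent, Matrix.one_apply_ne (by decide)] at h3
    have h4 : e.1 0 0 * (e⁻¹).1 0 1 ∈ F 0 := by
      have h5 : e.1 0 0 * (e⁻¹).1 0 1 = -(e.1 0 1 * (e⁻¹).1 1 1) := eq_neg_of_add_eq_zero_left h3
      rw [h5]
      exact (F _).neg_mem (D.mul' h b3 (by omega))
    rcases D.dom' e0 b1 h4 (by omega) with h5 | h5
    · exfalso
      apply D.one'
      have h6 := congrFun (congrFun (mulinv e) 0) 0
      rw [mul_ent, Matrix.one_apply_eq] at h6
      rw [← h6]
      exact (F _).add_mem (D.mul' h5 b0 (by omega)) (D.mul' h b2 (by omega))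
    · exact h5
  constructor
  · intro i j
    fin_cases i <;> fin_cases j
    · exact e0
    · exact h
    · exact D.mono _ _ (by omega) e2
    · exact e3
  · intro i j
    fin_cases i <;> fin_cases j
    · exact b0
    · exact h2
    · exact D.mono _ _ (by omega) b2
    · exact b3

/-- normal forms -/
def NF : ℕ → GL (Fin 2) R → Prop
  | 0, g => g ∈ A0 D
  | N + 1, g => ∃ h e a, NF N h ∧ ¬ Cl F 0 ((N : ℤ) - 1) h ∧ e ∈ E0 D ∧ e ∉ A0 D ∧ a ∈ A0 D ∧
      g = h * e * a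

theorem NF_mul (N : ℕ) {g a : GL (Fin 2) R} (hg : D.NF N g) (ha : a ∈ A0 D) : D.NF N (g * a) := by
  cases N with
  | zero => exact mul_mem hg ha
  | succ N =>
    obtain ⟨h, e, b, h1, h2, h3, h4, h5, rfl⟩ := hg
    exact ⟨h, e, b * a, h1, h2, h3, h4, mul_mem h5 ha, by group⟩

theorem NF_bd (N : ℕ) : ∀ {g : GL (Fin 2) R}, D.NF N g → Bd F N g := by
  induction N with
  | zero => exact fun hg => hg.1
  | succ N ih =>
    rintro g ⟨h, e, b, h1, h2, h3, h4, h5, rfl⟩
    rw [D.bd_iff h5]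
    have h6 := ih h1
    obtain ⟨⟨e0, e1, e2, e3⟩, -⟩ := h3
    intro i j
    rw [mul_ent]
    push_cast
    fin_cases j
    · exact (F _).add_mem (D.mul' (h6 i 0) e0 (by omega)) (D.mul' (h6 i 1) e2 (by omega))
    · exact (F _).add_mem (D.mul' (h6 i 0) e1 (by omega)) (D.mul' (h6 i 1) e3 (by omega))

theorem step {N : ℕ} {h e : GL (Fin 2) R} (h1 : Bd F N h) (h2 : ¬ Cl F 0 ((N : ℤ) - 1) h)
    (h3 : e ∈ E0 D) (h4 : e ∉ A0 D) : ¬ Cl F 1 N (h * e) := by
  intro h5
  apply h2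
  have h6 : e.1 0 1 ∉ F 0 := fun h6 => h4 (D.mem_A h3 h6)
  obtain ⟨⟨e0, e1, e2, e3⟩, -⟩ := h3
  intro i
  have h7 := h5 i
  rw [mul_ent] at h7
  have h8 : h.1 i 0 * e.1 0 1 ∈ F N := by
    have h9 := (F N).sub_mem h7 (D.mul' (h1 i 1) e3 (l := N) (by omega))
    rwa [add_sub_cancel_right] at h9
  rcases D.dom' (h1 i 0) e1 h8 (by omega) with h9 | h9
  · exact h9
  · exact absurd h9 h6

theorem NF_not (N : ℕ) {g : GL (Fin 2) R} (hg : D.NF (N + 1) g) : ¬ Bd F N g := by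
  obtain ⟨h, e, b, h1, h2, h3, h4, h5, rfl⟩ := hg
  rw [D.bd_iff h5]
  intro h6
  exact D.step (D.NF_bd N h1) h2 h3 h4 fun i => h6 i 1

theorem NF_mulE (N : ℕ) {g e : GL (Fin 2) R} (hg : D.NF N g) (he : e ∈ E0 D) :
    ∃ M, D.NF M (g * e) := by
  cases N with
  | zero =>
    by_cases h : e ∈ A0 D
    · exact ⟨0, mul_mem hg h⟩
    · refine ⟨1, g, e, 1, hg, ?_, he, h, one_mem _, by group⟩
      have := D.not_cl hg
      simpa using this
  | succ N =>
    by_cases hc : Cl F 0 N g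
    · obtain ⟨h, e', a, h1, h2, h3, h4, h5, rfl⟩ := hg
      have h6 : a ∈ E0 D := by
        apply D.mem_E h5
        have h7 := D.step (D.NF_bd N h1) h2 h3 h4
        have h8 : ∃ i, (h * e').1 i 1 ∉ F N := by
          by_contra hcon
          push Not at hcon
          exact h7 hcon
        obtain ⟨i, hi⟩ := h8
        have h9 := hc i
        rw [mul_ent] at h9
        have h10 : (h * e').1 i 0 ∈ F N ∧ (h * e').1 i 1 ∈ F (N + 1) := by
          have h6 := D.NF_bd N h1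
          obtain ⟨⟨e0, e1, e2, e3⟩, -⟩ := h3
          rw [mul_ent, mul_ent]
          exact ⟨(F _).add_mem (D.mul' (h6 i 0) e0 (by omega)) (D.mul' (h6 i 1) e2 (by omega)),
            (F _).add_mem (D.mul' (h6 i 0) e1 (by omega)) (D.mul' (h6 i 1) e3 (by omega))⟩
        have h11 : (h * e').1 i 1 * a.1 1 0 ∈ F N := by
          have h12 := (F N).sub_mem h9 (D.mul' h10.1 (h5.1 0 0) (l := N) (by omega))
          rwa [add_sub_cancel_left] at h12
        rcases D.dom' h10.2 (h5.1 1 0) h11 (by omega) with h12 | h12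
        · exact absurd (D.mono _ _ (by omega) h12) hi
        · exact h12
      have h7 : e' * a * e ∈ E0 D := mul_mem (mul_mem h3 h6) he
      by_cases h8 : e' * a * e ∈ A0 D
      · refine ⟨N, ?_⟩
        have h9 := D.NF_mul N h1 h8
        have h10 : h * e' * a * e = h * (e' * a * e) := by group
        rwa [h10]
      · exact ⟨N + 1, h, e' * a * e, 1, h1, h2, h7, h8, one_mem _, by group⟩
    · by_cases h : e ∈ A0 D
      · exact ⟨N + 1, D.NF_mul (N + 1) hg h⟩
      · refine ⟨N + 2, g, e, 1, hg, ?_, he, h, one_mem _, by group⟩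
        have h1 : (((N + 1 : ℕ) : ℤ) - 1) = N := by push_cast; ring
        rw [h1]
        exact hc

theorem NF_all {g : GL (Fin 2) R} (hg : g ∈ T0 D) : ∃ N, D.NF N g := by
  have key : ∀ x ∈ T0 D, (∀ g, (∃ N, D.NF N g) → ∃ N, D.NF N (g * x)) ∧
      ∀ g, (∃ N, D.NF N g) → ∃ N, D.NF N (g * x⁻¹) := by
    intro x hx
    induction hx using Subgroup.closure_induction with
    | mem x h =>
      constructor
      · rintro g ⟨N, hN⟩
        rcases h with h | h
        · exact ⟨N, D.NF_mul N hN h⟩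
        · exact D.NF_mulE N hN h
      · rintro g ⟨N, hN⟩
        rcases h with h | h
        · exact ⟨N, D.NF_mul N hN ((A0 D).inv_mem h)⟩
        · exact D.NF_mulE N hN ((E0 D).inv_mem h)
    | one =>
      rw [inv_one]
      exact ⟨fun g hg => by rwa [mul_one], fun g hg => by rwa [mul_one]⟩
    | mul x y _ _ h1 h2 =>
      constructor
      · intro g hg
        rw [← mul_assoc]
        exact h2.1 _ (h1.1 _ hg)
      · intro g hg
        rw [_root_.mul_inv_rev, ← mul_assoc]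
        exact h1.2 _ (h2.2 _ hg)
    | inv x hx h1 =>
      rw [inv_inv]
      exact ⟨h1.2, h1.1⟩
  have h1 := (key g hg).1 1 ⟨0, one_mem _⟩
  rwa [one_mul] at h1

theorem ex_bd (g : T0 D) : ∃ N : ℕ, Bd F N g.1 := by
  obtain ⟨N, hN⟩ := D.NF_all g.2
  exact ⟨N, D.NF_bd N hN⟩

theorem ex_cl (g : T0 D) : ∃ N : ℕ, Cl F 0 ((N : ℤ) - 1) g.1 ∧ Cl F 1 N g.1 := by
  obtain ⟨N, hN⟩ := D.ex_bd g
  refine ⟨N + 1, fun i => ?_, fun i => D.mono _ _ (by omega) (hN i 1)⟩
  push_cast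
  rw [add_sub_cancel_right]
  exact hN i 0

open Classical in
/-- the degree of a matrix, plus one -/
noncomputable def nn (g : T0 D) : ℕ := Nat.find (D.ex_bd g) + 1

open Classical in
/-- the degree for the second vertex -/
noncomputable def mm (g : T0 D) : ℕ := Nat.find (D.ex_cl g)

theorem nn_le {g : T0 D} {N : ℕ} : D.nn g ≤ N + 1 ↔ Bd F N g.1 := by
  classical
  unfold nn
  rw [Nat.add_le_add_iff_right, Nat.find_le_iff]
  constructor
  · rintro ⟨M, hM, h⟩ i j
    exact D.mono _ _ (by exact_mod_cast hM) (h i j)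
  · exact fun h => ⟨N, le_rfl, h⟩

theorem mm_le {g : T0 D} {N : ℕ} : D.mm g ≤ N ↔ Cl F 0 ((N : ℤ) - 1) g.1 ∧ Cl F 1 N g.1 := by
  classical
  unfold mm
  rw [Nat.find_le_iff]
  constructor
  · rintro ⟨M, hM, h1, h2⟩
    exact ⟨fun i => D.mono _ _ (by omega) (h1 i), fun i => D.mono _ _ (by omega) (h2 i)⟩
  · exact fun h => ⟨N, le_rfl, h⟩

theorem base {g : T0 D} (h : Bd F 0 g.1) : g.1 ∈ A0 D := by
  obtain ⟨N, hN⟩ := D.NF_all g.2
  cases N with
  | zero => exact hN
  | succ N =>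
    exact absurd (fun i j => D.mono _ _ (by omega) (h i j)) (D.NF_not N hN)

theorem A0_le : A0 D ≤ T0 D := fun _ h => Subgroup.subset_closure (Or.inl h)

theorem E0_le : E0 D ≤ T0 D := fun _ h => Subgroup.subset_closure (Or.inr h)

theorem eq_of_iff {a b : ℕ} (h : ∀ N, a ≤ N ↔ b ≤ N) : a = b :=
  le_antisymm ((h b).2 le_rfl) ((h a).1 le_rfl)

theorem pos (g : T0 D) : 1 ≤ D.mm g := by
  by_contra h
  have h0 : D.mm g ≤ 0 := by omega
  rw [D.mm_le] at h0
  obtain ⟨h1, h2⟩ := h0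
  have h3 : Cl F 0 (-1) g.1 := by simpa using h1
  have h4 : g.1 ∈ A0 D := by
    apply D.base
    rw [bd_cl]
    refine ⟨fun i => D.mono _ _ (by omega) (h3 i), fun i => by simpa using h2 i⟩
  exact D.not_cl h4 h3

theorem deg : Deg ((A0 D).subgroupOf (T0 D)) ((E0 D).subgroupOf (T0 D)) D.nn D.mm where
  nA g a ha := by
    have h1 : ∀ N : ℕ, D.nn (g * a) ≤ N + 1 ↔ D.nn g ≤ N + 1 := by
      intro N
      rw [D.nn_le, D.nn_le]
      exact D.bd_iff ha
    have h2 : ∀ x, 1 ≤ D.nn x := fun x => by unfold nn; omega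
    refine eq_of_iff fun N => ?_
    cases N with
    | zero =>
      have := h2 g
      have := h2 (g * a)
      omega
    | succ N => exact h1 N
  mE g e he := by
    refine eq_of_iff fun N => ?_
    rw [D.mm_le, D.mm_le]
    exact D.cl_iff he
  le g := by
    obtain ⟨N, hN⟩ : ∃ N, D.nn g = N + 1 := ⟨_, rfl⟩
    rw [hN, D.mm_le]
    have h1 := (D.nn_le).1 hN.le
    refine ⟨fun i => ?_, fun i => D.mono _ _ (by omega) (h1 i 1)⟩
    push_cast
    rw [add_sub_cancel_right]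
    exact h1 i 0
  pos := D.pos
  base g h := by
    have h1 : Bd F ((0 : ℕ) : ℤ) g.1 := (D.nn_le (N := 0)).1 h
    exact D.base (by simpa using h1)
  base' := by
    rw [show (1 : ℕ) = 0 + 1 from rfl, D.nn_le]
    simpa using (one_mem (A0 D)).1
  uE g hg a ha h := by
    obtain ⟨N, hN⟩ : ∃ N, D.nn g = N + 1 := ⟨_, rfl⟩
    have h1 : D.mm g ≤ N := by omega
    have h2 : D.mm (g * a) ≤ N := by omega
    rw [D.mm_le] at h1 h2
    have h3 : ¬ Bd F ((N : ℤ) - 1) g.1 := by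
      intro h3
      cases N with
      | zero =>
        have h4 : Bd F 0 g.1 := fun i j => D.mono _ _ (by omega) (h3 i j)
        refine D.not_cl (D.base h4) fun i => ?_
        simpa using h3 i 0
      | succ N =>
        have h4 : D.nn g ≤ N + 1 := by
          rw [D.nn_le]
          intro i j
          have := h3 i j
          push_cast at this
          rwa [add_sub_cancel_right] at this
        omega
    have h4 : ∃ i, g.1.1 i 1 ∉ F ((N : ℤ) - 1) := by
      by_contra hcon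
      push Not at hcon
      exact h3 (bd_cl.2 ⟨h1.1, hcon⟩)
    obtain ⟨i, hi⟩ := h4
    have h5 := h2.1 i
    have h6 : (g * a).1.1 i 0 = g.1.1 i 0 * a.1.1 0 0 + g.1.1 i 1 * a.1.1 1 0 := mul_ent g.1 a.1 i 0
    rw [h6] at h5
    have ha' : a.1 ∈ A0 D := ha
    have h7 : g.1.1 i 1 * a.1.1 1 0 ∈ F ((N : ℤ) - 1) := by
      have h12 := (F _).sub_mem h5 (D.mul' (h1.1 i) (ha'.1 0 0) (l := (N : ℤ) - 1) (by omega))
      rwa [add_sub_cancel_left] at h12
    rcases D.dom' (h1.2 i) (ha'.1 1 0) h7 (by omega) with h12 | h12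
    · exact absurd h12 hi
    · exact D.mem_E ha' h12
  uA g hg e he h := by
    obtain ⟨N, hN⟩ : ∃ N, D.nn g = N + 1 := ⟨_, rfl⟩
    have h1 := (D.nn_le).1 hN.le
    have h2 : Bd F N (g * e).1 := (D.nn_le).1 (by omega)
    have he' : e.1 ∈ E0 D := he
    by_contra hcon
    have h3 : e.1 ∉ A0 D := hcon
    refine D.step h1 ?_ he' h3 fun i => h2 i 1
    intro h4
    have h5 : D.mm g ≤ N := by
      rw [D.mm_le]
      exact ⟨h4, fun i => h1 i 1⟩
    omega
  gen g := by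
    obtain ⟨g, hg⟩ := g
    have key : ∀ (x : GL (Fin 2) R) (hx : x ∈ T0 D),
        (⟨x, hx⟩ : T0 D) ∈ Subgroup.closure
          (((A0 D).subgroupOf (T0 D) : Set (T0 D)) ∪ (E0 D).subgroupOf (T0 D)) := by
      intro x hx
      induction hx using Subgroup.closure_induction with
      | mem x h =>
        refine Subgroup.subset_closure ?_
        rcases h with h | h
        · exact Or.inl h
        · exact Or.inr h
      | one => exact one_mem _
      | mul x y hx hy h1 h2 => exact mul_mem h1 h2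
      | inv x hx h1 => exact inv_mem h1
    exact key g hg

end Filt

end Pool.Agent.H86.LP
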