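import Pool.Agent.H86.LP.Lau

/-!
# Skew Laurent polynomial rings: generation of the group of matrices
-/

set_option autoImplicit false

namespace Pool.Agent.H86.LP

open Pool.Agent.R941.BC (W W_sub W_ext W_le)
open Pool.Agent.H86.BCP
open Pool.Agent.H86.BC2 (mul_ent)
open Q30.FJ (el el_val el_add el_inj el_zero)
open Matrix

variable {k : Type} [DivisionRing k] [MulSemiringAction (Multiplicative ℤ) k]

/-- the filtration by the degree in `t` -/
theorem fil : Filt (R := Lau k) (Fl 1) := filt (Or.inl rfl)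

/-- the variable -/
noncomputable def tt (k : Type) [DivisionRing k] [MulSemiringAction (Multiplicative ℤ) k] :
    (Lau k)ˣ where
  val := mon 1 1
  inv := mon (-1) 1
  val_inv := by rw [mon_mul, smul_one, mul_one]; rfl
  inv_val := by rw [mon_mul, smul_one, mul_one]; rfl

theorem tt_unif : Unif (Fl 1) (tt k) := ⟨mon_mem _ (by omega), mon_mem _ (by omega)⟩

/-- the group generated by the stabilizers of the two vertices and by the exchange -/
noncomputable def PP (k : Type) [DivisionRing k] [MulSemiringAction (Multiplicative ℤ) k] :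
    Subgroup (GL (Fin 2) (Lau k)) := T0 (fil (k := k)) ⊔ Subgroup.zpowers (om (tt k))

theorem A0_PP {g : GL (Fin 2) (Lau k)} (h : g ∈ A0 (fil (k := k))) : g ∈ PP k :=
  Subgroup.mem_sup_left ((fil (k := k)).A0_le h)

/-- the exchange of the coordinates -/
def ww (R : Type) [Ring R] : GL (Fin 2) R where
  val := !![0, 1; 1, 0]
  inv := !![0, 1; 1, 0]
  val_inv := by
    rw [Matrix.mul_fin_two]
    ext i j
    fin_cases i <;> fin_cases j <;> simp
  inv_val := by
    rw [Matrix.mul_fin_two]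
    ext i j
    fin_cases i <;> fin_cases j <;> simp

theorem mul_ww {R : Type} [Ring R] (g : GL (Fin 2) R) (i : Fin 2) :
    (g * ww R).1 i 0 = g.1 i 1 ∧ (g * ww R).1 i 1 = g.1 i 0 := by
  have h : (ww R).1 = !![0, 1; 1, 0] := rfl
  rw [mul_ent, mul_ent, h]
  simp

theorem mul_el' {R : Type} [Ring R] (g : GL (Fin 2) R) (r : R) (i : Fin 2) :
    (g * el r).1 i 0 = g.1 i 0 ∧ (g * el r).1 i 1 = g.1 i 0 * r + g.1 i 1 := by
  rw [mul_ent, mul_ent, el_val]
  simp

theorem ww_PP : ww (Lau k) ∈ PP k := by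
  apply A0_PP
  have h1 : Bd (Fl 1) 0 (ww (Lau k)) := by
    intro i j
    fin_cases i <;> fin_cases j
    · exact AddSubgroup.zero_mem _
    · exact (fil (k := k)).one
    · exact (fil (k := k)).one
    · exact AddSubgroup.zero_mem _
  exact ⟨h1, h1⟩

theorem dg_PP : dg (tt k) ∈ PP k := by
  have h1 : om (tt k) * ww (Lau k) = dg (tt k) := by
    apply Units.ext
    refine Matrix.ext fun i j => ?_
    have h2 : (om (tt k)).1 = !![0, (tt k).1; 1, 0] := rfl
    have h3 : (dg (tt k)).1 = !![(tt k).1, 0; 0, 1] := rfl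
    fin_cases j
    · show (om (tt k) * ww (Lau k)).1 i 0 = (dg (tt k)).1 i 0
      rw [(mul_ww _ _).1, h2, h3]
      fin_cases i <;> simp
    · show (om (tt k) * ww (Lau k)).1 i 1 = (dg (tt k)).1 i 1
      rw [(mul_ww _ _).2, h2, h3]
      fin_cases i <;> simp
  rw [← h1]
  exact mul_mem (Subgroup.mem_sup_right (Subgroup.mem_zpowers _)) ww_PP

/-- the diagonal matrix with entries `r`, `1` -/
def d1 {R : Type} [Ring R] (u : Rˣ) : GL (Fin 2) R := dg u

theorem el_const {a : k} : el (mon 0 a) ∈ PP k := by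
  apply A0_PP
  have h1 : ∀ r : Lau k, r ∈ Fl 1 0 → Bd (Fl 1) 0 (el r) := by
    intro r hr i j
    rw [el_val]
    fin_cases i <;> fin_cases j
    · exact (fil (k := k)).one
    · exact hr
    · exact AddSubgroup.zero_mem _
    · exact (fil (k := k)).one
  refine ⟨h1 _ (mon_mem _ (by omega)), ?_⟩
  have h2 : (el (mon 0 a))⁻¹ = el (-(mon 0 a : Lau k)) := by
    rw [inv_eq_iff_mul_eq_one, ← el_add, add_neg_cancel, el_zero]
  rw [h2]
  exact h1 _ (AddSubgroup.neg_mem _ (mon_mem _ (by omega)))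

theorem dg_conj (t : (Lau k)ˣ) (r : Lau k) : dg t * el r * (dg t)⁻¹ = el (t.1 * r) := by
  rw [mul_inv_eq_iff_eq_mul]
  apply Units.ext
  ext i j
  have h3 : (dg t).1 = !![t.1, 0; 0, 1] := rfl
  rw [mul_ent, mul_ent, h3, el_val, el_val]
  fin_cases i <;> fin_cases j <;> simp

theorem el_mon (n : ℤ) (a : k) : el (mon n a) ∈ PP k := by
  -- the conjugations by the diagonal matrix
  have h1 : ∀ r : Lau k, el r ∈ PP k → el ((tt k).1 * r) ∈ PP k := by
    intro r hr
    rw [← dg_conj]
    exact mul_mem (mul_mem dg_PP hr) (inv_mem dg_PP)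
  have h2 : ∀ r : Lau k, el ((tt k).1 * r) ∈ PP k → el r ∈ PP k := by
    intro r hr
    rw [← dg_conj] at hr
    have h3 := mul_mem (mul_mem (inv_mem dg_PP) hr) dg_PP
    have h4 : (dg (tt k))⁻¹ * (dg (tt k) * el r * (dg (tt k))⁻¹) * dg (tt k) = el r := by group
    rwa [h4] at h3
  have h3 : ∀ (n : ℤ) (a : k), (tt k).1 * mon n a = mon (1 + n) (Multiplicative.ofAdd (1 : ℤ) • a) := by
    intro n a
    show mon 1 1 * mon n a = _
    rw [mon_mul, one_mul]
  have key : ∀ N : ℕ, (∀ a : k, el (mon (N : ℤ) a) ∈ PP k) ∧ ∀ a : k, el (mon (-(N : ℤ)) a) ∈ PP k := by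
    intro N
    induction N with
    | zero => exact ⟨fun a => el_const, fun a => el_const⟩
    | succ N ih =>
      constructor
      · intro a
        have h4 := h1 _ (ih.1 ((Multiplicative.ofAdd (1 : ℤ))⁻¹ • a))
        rw [h3, smul_inv_smul] at h4
        have h5 : (1 + (N : ℤ)) = ((N + 1 : ℕ) : ℤ) := by push_cast; ring
        rwa [h5] at h4
      · intro a
        apply h2
        rw [h3]
        have h5 : (1 + -((N + 1 : ℕ) : ℤ)) = -(N : ℤ) := by push_cast; ring
        rw [h5]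
        exact ih.2 _
  rcases Int.le_total 0 n with h | h
  · have := (key n.natAbs).1 a
    have h5 : ((n.natAbs : ℤ)) = n := by omega
    rwa [h5] at this
  · have := (key n.natAbs).2 a
    have h5 : (-(n.natAbs : ℤ)) = n := by omega
    rwa [h5] at this

theorem el_PP (r : Lau k) : el r ∈ PP k := by
  induction r using SkewMonoidAlgebra.induction_on with
  | zero => rw [el_zero]; exact one_mem _
  | single g a => exact el_mon g.toAdd a
  | add f g hf hg => rw [el_add]; exact mul_mem hf hg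

theorem dg_mul {R : Type} [Ring R] (u v : Rˣ) : (dg (u * v) : GL (Fin 2) R) = dg u * dg v := by
  apply Units.ext
  refine Matrix.ext fun i j => ?_
  have h : ∀ u : Rˣ, (dg u).1 = !![u.1, 0; 0, 1] := fun _ => rfl
  rw [mul_ent, h, h, h]
  fin_cases i <;> fin_cases j <;> simp

theorem dg_const {p : (Lau k)ˣ} {a : k} (hp : p.1 = mon 0 a) : dg p ∈ PP k := by
  have h1 : ∀ q : (Lau k)ˣ, q.1 ∈ Fl 1 0 → Bd (Fl 1) 0 (dg q) := by
    intro q hq i j
    have h : (dg q).1 = !![q.1, 0; 0, 1] := rfl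
    rw [h]
    fin_cases i <;> fin_cases j
    · exact hq
    · exact AddSubgroup.zero_mem _
    · exact AddSubgroup.zero_mem _
    · exact (fil (k := k)).one
  have ha : a ≠ 0 := by
    rintro rfl
    have h2 : p.1 = 0 := by
      rw [hp]
      exact cf_ext fun n => by rw [cf_mon, ite_self, cf_zero]
    exact p.ne_zero h2
  have h2 : (p⁻¹).1 = mon 0 a⁻¹ := by
    have h3 : p.1 * mon 0 a⁻¹ = 1 := by
      rw [hp, mon_mul, ofAdd_zero, one_smul, mul_inv_cancel₀ ha, add_zero, one_eq]
    have h4 : (p⁻¹).1 * (p.1 * mon 0 a⁻¹) = (p⁻¹).1 := by rw [h3, mul_one]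
    rw [← mul_assoc, Units.inv_mul, one_mul] at h4
    exact h4.symm
  apply A0_PP
  refine ⟨h1 p (by rw [hp]; exact mon_mem _ (by omega)), ?_⟩
  exact h1 p⁻¹ (by rw [h2]; exact mon_mem _ (by omega))

theorem dg_mon (n : ℤ) : ∀ (p : (Lau k)ˣ) (a : k), p.1 = mon n a → dg p ∈ PP k := by
  have key : ∀ N : ℕ, (∀ (p : (Lau k)ˣ) (a : k), p.1 = mon (N : ℤ) a → dg p ∈ PP k) ∧
      ∀ (p : (Lau k)ˣ) (a : k), p.1 = mon (-(N : ℤ)) a → dg p ∈ PP k := by
    intro N
    induction N with
    | zero => exact ⟨fun p a hp => dg_const hp, fun p a hp => dg_const hp⟩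
    | succ N ih =>
      constructor
      · intro p a hp
        have h1 : p = tt k * ((tt k)⁻¹ * p) := by rw [mul_inv_cancel_left]
        rw [h1, dg_mul]
        refine mul_mem dg_PP (ih.1 _ (Multiplicative.ofAdd (-1 : ℤ) • a) ?_)
        show mon (-1) 1 * p.1 = _
        rw [hp, mon_mul, one_mul]
        congr 1
        push_cast
        ring
      · intro p a hp
        have h1 : p = (tt k)⁻¹ * (tt k * p) := by rw [inv_mul_cancel_left]
        have h2 : (dg ((tt k)⁻¹) : GL (Fin 2) (Lau k)) = (dg (tt k))⁻¹ := by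
          rw [eq_inv_iff_mul_eq_one, ← dg_mul, inv_mul_cancel]
          apply Units.ext
          refine Matrix.ext fun i j => ?_
          have h : (dg (1 : (Lau k)ˣ)).1 = !![((1 : (Lau k)ˣ)).1, 0; 0, 1] := rfl
          rw [h]
          fin_cases i <;> fin_cases j <;> simp
        rw [h1, dg_mul, h2]
        refine mul_mem (inv_mem dg_PP) (ih.2 _ (Multiplicative.ofAdd (1 : ℤ) • a) ?_)
        show mon 1 1 * p.1 = _
        rw [hp, mon_mul, one_mul]
        congr 1
        push_cast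
        ring
  intro p a hp
  rcases Int.le_total 0 n with h | h
  · refine (key n.natAbs).1 p a ?_
    have h5 : ((n.natAbs : ℤ)) = n := by omega
    rwa [h5]
  · refine (key n.natAbs).2 p a ?_
    have h5 : (-(n.natAbs : ℤ)) = n := by omega
    rwa [h5]

/-- units are monomials -/
theorem unit_mon {p p' : Lau k} (h : p * p' = 1) : ∃ n, p = mon n (cf p n) := by
  have hp : p ≠ 0 := by
    rintro rfl
    rw [zero_mul] at h
    exact zero_ne_one h
  have hp' : p' ≠ 0 := by
    rintro rfl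
    rw [mul_zero] at h
    exact zero_ne_one h
  have key : ∀ e : ℤ, (e = 1 ∨ e = -1) → ∀ n n' : ℤ, p ∉ Fl e (n - 1) → p ∈ Fl e n →
      p' ∈ Fl e n' → p' ∉ Fl e (n' - 1) → n + n' ≤ 0 := by
    intro e he n n' h1 h2 h3 h4
    by_contra hc
    have h5 : p * p' ∈ Fl e (n + n' - 1) := by
      rw [h]
      exact (filt (k := k) he).mono _ _ (by omega) (filt (k := k) he).one
    rcases (filt (k := k) he).dom _ _ _ _ h2 h3 h5 with h6 | h6
    · exact h1 h6
    · exact h4 h6
  obtain ⟨n, h1, h2⟩ := ex_deg (e := 1) (Or.inl rfl) hp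
  obtain ⟨n', h3, h4⟩ := ex_deg (e := 1) (Or.inl rfl) hp'
  obtain ⟨m, h5, h6⟩ := ex_deg (e := -1) (Or.inr rfl) hp
  obtain ⟨m', h7, h8⟩ := ex_deg (e := -1) (Or.inr rfl) hp'
  have h9 := key 1 (Or.inl rfl) n n' h2 h1 h3 h4
  have h10 := key (-1) (Or.inr rfl) m m' h6 h5 h7 h8
  have h11 : 0 ≤ n' + m' := by
    by_contra hc
    apply hp'
    refine cf_ext fun l => ?_
    rw [cf_zero]
    by_cases hl : n' < l
    · exact h3 l (by omega)
    · exact h7 l (by omega)
  refine ⟨n, cf_ext fun l => ?_⟩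
  rw [cf_mon]
  split_ifs with hl
  · rw [hl]
  · by_cases hl' : n < l
    · exact h1 l (by omega)
    · exact h5 l (by omega)

theorem upper_PP {g : GL (Fin 2) (Lau k)} (hg : g.1 1 0 = 0) : g ∈ PP k := by
  obtain ⟨h, hh⟩ : ∃ h, h = g⁻¹ := ⟨_, rfl⟩
  have e00 := congrFun (congrFun (Filt.mulinv g) 0) 0
  have e10 := congrFun (congrFun (Filt.mulinv g) 1) 0
  have e11 := congrFun (congrFun (Filt.mulinv g) 1) 1
  rw [mul_ent, Matrix.one_apply_eq] at e00 e11
  rw [mul_ent, Matrix.one_apply_ne (by decide)] at e10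
  rw [hg, zero_mul, zero_add] at e10 e11
  have h10 : (g⁻¹).1 1 0 = 0 := by
    rcases mul_eq_zero.1 e10 with h1 | h1
    · rw [h1, zero_mul] at e11
      exact absurd e11 zero_ne_one
    · exact h1
  rw [h10, mul_zero, add_zero] at e00
  have hcomm : ∀ x y : Lau k, x * y = 1 → y * x = 1 := by
    intro x y hxy
    have hx : x ≠ 0 := by
      rintro rfl
      rw [zero_mul] at hxy
      exact zero_ne_one hxy
    have h1 : x * (y * x - 1) = 0 := by
      rw [mul_sub, ← mul_assoc, hxy, one_mul, mul_one, sub_self]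
    rcases mul_eq_zero.1 h1 with h2 | h2
    · exact absurd h2 hx
    · exact sub_eq_zero.1 h2
  let p : (Lau k)ˣ := ⟨g.1 0 0, (g⁻¹).1 0 0, e00, hcomm _ _ e00⟩
  let u : (Lau k)ˣ := ⟨g.1 1 1, (g⁻¹).1 1 1, e11, hcomm _ _ e11⟩
  obtain ⟨n, hn⟩ := unit_mon e00
  obtain ⟨m, hm⟩ := unit_mon e11
  have h1 : dg p ∈ PP k := dg_mon n p _ hn
  have h2 : dg u ∈ PP k := dg_mon m u _ hm
  have h3 : g = dg p * (ww (Lau k) * dg u * ww (Lau k)) * el ((g⁻¹).1 0 0 * g.1 0 1) := by
    apply Units.ext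
    refine Matrix.ext fun i j => ?_
    have hp : (dg p).1 = !![g.1 0 0, 0; 0, 1] := rfl
    have hu : (dg u).1 = !![g.1 1 1, 0; 0, 1] := rfl
    have hw : (ww (Lau k)).1 = !![0, 1; 1, 0] := rfl
    have h4 : ∀ i j, (ww (Lau k) * dg u * ww (Lau k)).1 i j =
        (!![1, 0; 0, g.1 1 1] : Matrix (Fin 2) (Fin 2) (Lau k)) i j := by
      intro i j
      fin_cases j
      · refine ((mul_ww _ _).1).trans ?_
        rw [mul_ent, hw, hu]
        fin_cases i <;> simp
      · refine ((mul_ww _ _).2).trans ?_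
        rw [mul_ent, hw, hu]
        fin_cases i <;> simp
    have h5 : ∀ i j, (dg p * (ww (Lau k) * dg u * ww (Lau k))).1 i j =
        (!![g.1 0 0, 0; 0, g.1 1 1] : Matrix (Fin 2) (Fin 2) (Lau k)) i j := by
      intro i j
      rw [mul_ent, h4, h4, hp]
      fin_cases i <;> fin_cases j <;> simp
    fin_cases j
    · refine Eq.trans ?_ ((mul_el' _ _ _).1).symm
      rw [h5]
      fin_cases i
      · rfl
      · exact hg
    · refine Eq.trans ?_ ((mul_el' _ _ _).2).symm
      rw [h5, h5]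
      fin_cases i
      · show g.1 0 1 = g.1 0 0 * ((g⁻¹).1 0 0 * g.1 0 1) + 0
        rw [← mul_assoc, e00, one_mul, add_zero]
      · show g.1 1 1 = 0 * _ + g.1 1 1
        rw [zero_mul, zero_add]
  rw [h3]
  exact mul_mem (mul_mem h1 (mul_mem (mul_mem ww_PP h2) ww_PP)) (el_PP _)

/-- the support has length at most `N` -/
def szP (N : ℕ) (r : Lau k) : Prop := ∃ n : ℤ, r ∈ Fl 1 n ∧ r ∈ Fl (-1) ((N : ℤ) - 1 - n)

theorem ex_sz (r : Lau k) : ∃ N, szP N r := by
  obtain ⟨N, hN⟩ := ex_Fl 1 (Or.inl rfl) r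
  obtain ⟨M, hM⟩ := ex_Fl (-1) (Or.inr rfl) r
  refine ⟨N + M + 1, N, hN, ?_⟩
  have h : ((N + M + 1 : ℕ) : ℤ) - 1 - N = M := by push_cast; ring
  rw [h]
  exact hM

open Classical in
/-- the length of the support -/
noncomputable def sz (r : Lau k) : ℕ := Nat.find (ex_sz r)

theorem sz_spec (r : Lau k) : szP (sz r) r := by
  classical
  exact Nat.find_spec (ex_sz r)

theorem sz_le {r : Lau k} {N : ℕ} (h : szP N r) : sz r ≤ N := by
  classical
  exact Nat.find_min' (ex_sz r) h

theorem sz_pos {r : Lau k} (hr : r ≠ 0) : 0 < sz r := by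
  by_contra hc
  obtain ⟨n, h1, h2⟩ := sz_spec r
  have h0 : sz r = 0 := by omega
  rw [h0] at h2
  apply hr
  refine cf_ext fun m => ?_
  rw [cf_zero]
  by_cases hm : n < m
  · exact h1 m (by omega)
  · exact h2 m (by push_cast; omega)

theorem lower {N : ℕ} {n : ℤ} {r : Lau k} (hN : 0 < N) (h1 : r ∈ Fl 1 n)
    (h2 : r ∈ Fl (-1) ((N : ℤ) - 1 - n)) (h3 : cf r n = 0) : szP (N - 1) r := by
  refine ⟨n - 1, fun m hm => ?_, ?_⟩
  · by_cases h : m = n
    · rw [h, h3]
    · exact h1 m (by omega)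
  · have h4 : (((N - 1 : ℕ) : ℤ) - 1 - (n - 1)) = (N : ℤ) - 1 - n := by
      have : ((N - 1 : ℕ) : ℤ) = (N : ℤ) - 1 := by omega
      rw [this]
      ring
    rw [h4]
    exact h2

theorem div {a b : Lau k} (ha : a ≠ 0) (hb : b ≠ 0) (hab : sz b ≤ sz a) :
    ∃ q, sz (a - b * q) < sz a := by
  obtain ⟨n, h1, h2⟩ := sz_spec a
  obtain ⟨m, h3, h4⟩ := sz_spec b
  have h5 : cf b m ≠ 0 := by
    intro h5
    have h6 := sz_le (lower (sz_pos hb) h3 h4 h5)
    have := sz_pos hb
    omega
  let q : Lau k := mon (n - m) ((Multiplicative.ofAdd m)⁻¹ • ((cf b m)⁻¹ * cf a n))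
  refine ⟨q, ?_⟩
  have h6 : cf (b * q) (m + (n - m)) = cf a n := by
    rw [cf_mul_top]
    · show _ * (_ • cf (mon _ _) _) = _
      rw [cf_mon, if_pos rfl, smul_inv_smul, mul_inv_cancel_left₀ h5]
    · intro i j hij hi hj
      have h2 : j = n - m := by
        by_contra hne
        apply hj
        show cf (mon _ _) j = 0
        rw [cf_mon, if_neg (fun h => hne h.symm)]
      exact ⟨by omega, h2⟩
  have h7 : m + (n - m) = n := by ring
  rw [h7] at h6
  have h8 : a - b * q ∈ Fl 1 n := AddSubgroup.sub_mem _ h1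
    ((filt (Or.inl rfl)).mul' h3 (mon_mem _ (le_refl _)) (by omega))
  have h9 : a - b * q ∈ Fl (-1) ((sz a : ℤ) - 1 - n) := AddSubgroup.sub_mem _ h2
    ((filt (Or.inr rfl)).mul' h4 (mon_mem _ (le_refl _)) (by omega))
  have h10 : cf (a - b * q) n = 0 := by rw [cf_sub, h6, sub_self]
  have h11 := sz_le (lower (sz_pos ha) h8 h9 h10)
  have := sz_pos ha
  omega

theorem PP_top : PP k = ⊤ := by
  rw [eq_top_iff]
  have key : ∀ (N : ℕ) (g : GL (Fin 2) (Lau k)), sz (g.1 1 0) + sz (g.1 1 1) = N → g ∈ PP k := by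
    intro N
    induction N using Nat.strong_induction_on with
    | _ N ih =>
      have main : ∀ g : GL (Fin 2) (Lau k), sz (g.1 1 0) + sz (g.1 1 1) = N → g.1 1 0 ≠ 0 →
          g.1 1 1 ≠ 0 → sz (g.1 1 1) ≤ sz (g.1 1 0) → g ∈ PP k := by
        intro g hN h0 h1 hle
        obtain ⟨q, hq⟩ := div h0 h1 hle
        let g' := g * ww (Lau k) * el (-q) * ww (Lau k)
        have h2 : g'.1 1 0 = g.1 1 0 - g.1 1 1 * q := by
          refine ((mul_ww _ _).1).trans ?_
          rw [(mul_el' _ _ _).2, (mul_ww _ _).1, (mul_ww _ _).2, mul_neg]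
          abel
        have h3 : g'.1 1 1 = g.1 1 1 := by
          refine ((mul_ww _ _).2).trans ?_
          rw [(mul_el' _ _ _).1, (mul_ww _ _).1]
        have h4 : g' ∈ PP k := by
          refine ih (sz (g'.1 1 0) + sz (g'.1 1 1)) ?_ g' rfl
          rw [h2, h3]
          omega
        have h5 : g = g' * (ww (Lau k))⁻¹ * (el (-q))⁻¹ * (ww (Lau k))⁻¹ := by
          show g = g * ww (Lau k) * el (-q) * ww (Lau k) * _ * _ * _
          group
        rw [h5]
        exact mul_mem (mul_mem (mul_mem h4 (inv_mem ww_PP)) (inv_mem (el_PP _))) (inv_mem ww_PP)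
      intro g hN
      by_cases h0 : g.1 1 0 = 0
      · exact upper_PP h0
      · by_cases h1 : g.1 1 1 = 0
        · have h2 : g * ww (Lau k) ∈ PP k := upper_PP (by rw [(mul_ww _ _).1]; exact h1)
          have h3 := mul_mem h2 (inv_mem ww_PP)
          rwa [mul_inv_cancel_right] at h3
        · by_cases hle : sz (g.1 1 1) ≤ sz (g.1 1 0)
          · exact main g hN h0 h1 hle
          · have h2 : g * ww (Lau k) ∈ PP k := by
              refine main _ ?_ ?_ ?_ ?_
              · rw [(mul_ww _ _).1, (mul_ww _ _).2]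
                omega
              · rw [(mul_ww _ _).1]
                exact h1
              · rw [(mul_ww _ _).2]
                exact h0
              · rw [(mul_ww _ _).1, (mul_ww _ _).2]
                omega
            have h3 := mul_mem h2 (inv_mem ww_PP)
            rwa [mul_inv_cancel_right] at h3
  exact fun g _ => key _ g rfl

variable {B : ∀ (G : Type) [Group G], Prop}

/-- **matrices of degree two over skew Laurent polynomial rings** -/
theorem hierL (h : InheritBC B) (hK : W B (GL (Fin 2) k)) : Hier B (GL (Fin 2) (Lau k)) :=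
  hier_GL (fil (k := k)) tt_unif h (hierO h hK) PP_top

end Pool.Agent.H86.LP
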