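import Pool.Agent.H86.LP.GenL

/-!
# Skew Laurent polynomial rings over commutative domains and group rings of `A ⋊ ℤ`
-/

set_option autoImplicit false

namespace Pool.Agent.H86.LP

open Pool.Agent.R941.BC (W W_sub W_ext W_le)
open Pool.Agent.H86.BCP
open SkewMonoidAlgebra

/-! ### change of coefficients -/

section

variable {R k : Type} [CommRing R] [MulSemiringAction (Multiplicative ℤ) R]
  [DivisionRing k] [MulSemiringAction (Multiplicative ℤ) k]

/-- the change of coefficients `R[t, 1/t] → k[t, 1/t]` along an equivariant homomorphism `R → k` -/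
noncomputable def mp (i : R →+* k) (hi : ∀ (n : Multiplicative ℤ) (r : R), i (n • r) = n • i r) :
    SkewMonoidAlgebra R (Multiplicative ℤ) →+* Lau k :=
  SkewMonoidAlgebra.liftNCRingHom (singleOneRingHom.comp i)
    (SkewMonoidAlgebra.of k (Multiplicative ℤ)) (by
      intro x y
      show single 1 (i (y • x)) * single y (1 : k) = single y (1 : k) * single 1 (i x)
      rw [single_mul_single, single_mul_single, hi, one_mul, mul_one, one_mul, one_smul, mul_one])

theorem mp_single (i : R →+* k) (hi) (n : Multiplicative ℤ) (r : R) :
    mp i hi (single n r) = single n (i r) := by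
  unfold mp SkewMonoidAlgebra.liftNCRingHom
  show SkewMonoidAlgebra.liftNC _ _ (single n r) = _
  rw [SkewMonoidAlgebra.liftNC_single]
  show single 1 (i r) * single n (1 : k) = single n (i r)
  rw [single_mul_single, one_mul, one_smul, mul_one]

theorem cf_mp (i : R →+* k) (hi) (r : SkewMonoidAlgebra R (Multiplicative ℤ)) (n : ℤ) :
    cf (mp i hi r) n = i (r.coeff (Multiplicative.ofAdd n)) := by
  classical
  induction r using SkewMonoidAlgebra.induction_on' with
  | single g a =>
    rw [mp_single]
    unfold cf
    rw [coeff_single_apply, coeff_single_apply]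
    split_ifs
    · rfl
    · exact (map_zero i).symm
  | add f g hf hg =>
    rw [map_add, cf_add, hf, hg, coeff_add, Finsupp.add_apply, map_add]

theorem mp_inj (i : R →+* k) (hi) (hinj : Function.Injective i) :
    Function.Injective (mp i hi) := by
  intro r s hrs
  refine SkewMonoidAlgebra.ext fun n => hinj ?_
  have h1 := congrArg (fun z => cf z n.toAdd) hrs
  simp only [cf_mp] at h1
  exact h1

end

/-! ### group rings -/

section

variable (D A : Type) [CommRing D] [CommGroup A] (φ : Multiplicative ℤ →* MulAut A)

/-- the group ring `D[A]` with the action of `ℤ` given by `φ` -/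
def GR (_ : Multiplicative ℤ →* MulAut A) : Type := MonoidAlgebra D A

noncomputable instance : CommRing (GR D A φ) := inferInstanceAs (CommRing (MonoidAlgebra D A))

/-- the action of `ℤ` on `D[A]` -/
noncomputable def actHom : Multiplicative ℤ →* RingAut (GR D A φ) where
  toFun n := MonoidAlgebra.mapDomainRingEquiv D (φ n)
  map_one' := by
    apply RingEquiv.ext
    intro x
    apply MonoidAlgebra.ext
    rw [map_one]
    show (MonoidAlgebra.mapDomainRingEquiv D (1 : A ≃* A) x).coeff = x.coeff
    rw [MonoidAlgebra.coeff_mapDomainRingEquiv]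
    ext a
    rfl
  map_mul' n m := by
    apply RingEquiv.ext
    intro x
    apply MonoidAlgebra.ext
    show (MonoidAlgebra.mapDomainRingEquiv D (φ (n * m)) x).coeff =
      (MonoidAlgebra.mapDomainRingEquiv D (φ n)
        (MonoidAlgebra.mapDomainRingEquiv D (φ m) x)).coeff
    rw [MonoidAlgebra.coeff_mapDomainRingEquiv, MonoidAlgebra.coeff_mapDomainRingEquiv,
      MonoidAlgebra.coeff_mapDomainRingEquiv, map_mul]
    ext a
    rfl

noncomputable instance : MulSemiringAction (Multiplicative ℤ) (GR D A φ) :=
  MulSemiringAction.compHom _ (actHom D A φ)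

variable {D A φ}

theorem smul_single (n : Multiplicative ℤ) (a : A) (d : D) :
    n • (show GR D A φ from MonoidAlgebra.single a d) =
      (show GR D A φ from MonoidAlgebra.single (φ n a) d) := by
  show MonoidAlgebra.mapDomainRingEquiv D (φ n) (MonoidAlgebra.single a d) = _
  rw [MonoidAlgebra.mapDomainRingEquiv_single]

variable (D A φ)

/-- the group elements -/
noncomputable def gHom : A ⋊[φ] Multiplicative ℤ →*
    SkewMonoidAlgebra (GR D A φ) (Multiplicative ℤ) where
  toFun h := single h.right (show GR D A φ from MonoidAlgebra.single h.left 1)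
  map_one' := rfl
  map_mul' h h' := by
    rw [single_mul_single, smul_single, SemidirectProduct.mul_left, SemidirectProduct.mul_right]
    congr 1
    show MonoidAlgebra.single (h.left * φ h.right h'.left) (1 : D) =
      MonoidAlgebra.single h.left (1 : D) * MonoidAlgebra.single (φ h.right h'.left) (1 : D)
    rw [MonoidAlgebra.single_mul_single, mul_one]

/-- the coefficients -/
noncomputable def dHom : D →+* SkewMonoidAlgebra (GR D A φ) (Multiplicative ℤ) :=
  singleOneRingHom.comp (show D →+* GR D A φ from MonoidAlgebra.singleOneRingHom)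

/-- the isomorphism `D[A ⋊ ℤ] → D[A][t, 1/t]` -/
noncomputable def grHom : MonoidAlgebra D (A ⋊[φ] Multiplicative ℤ) →+*
    SkewMonoidAlgebra (GR D A φ) (Multiplicative ℤ) :=
  MonoidAlgebra.liftNCRingHom (dHom D A φ) (gHom D A φ) (by
    intro d h
    show single 1 (show GR D A φ from MonoidAlgebra.single 1 d) *
      single h.right (show GR D A φ from MonoidAlgebra.single h.left 1) =
      single h.right (show GR D A φ from MonoidAlgebra.single h.left 1) *
      single 1 (show GR D A φ from MonoidAlgebra.single 1 d)
    rw [single_mul_single, single_mul_single, one_smul, one_mul, mul_one, smul_single, map_one]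
    congr 1
    exact mul_comm _ _)

theorem grHom_single (h : A ⋊[φ] Multiplicative ℤ) (d : D) :
    grHom D A φ (MonoidAlgebra.single h d) =
      single h.right (show GR D A φ from MonoidAlgebra.single h.left d) := by
  unfold grHom
  rw [MonoidAlgebra.liftNCRingHom_single]
  show single 1 (show GR D A φ from MonoidAlgebra.single 1 d) *
      single h.right (show GR D A φ from MonoidAlgebra.single h.left 1) = _
  rw [single_mul_single, one_smul, one_mul]
  congr 1
  show MonoidAlgebra.single (1 : A) d * MonoidAlgebra.single h.left (1 : D) =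
    MonoidAlgebra.single h.left d
  rw [MonoidAlgebra.single_mul_single, one_mul, mul_one]

theorem coeff_grHom (r : MonoidAlgebra D (A ⋊[φ] Multiplicative ℤ)) (n : Multiplicative ℤ)
    (a : A) : MonoidAlgebra.coeff (show MonoidAlgebra D A from (grHom D A φ r).coeff n) a =
      r.coeff ⟨a, n⟩ := by
  classical
  induction r using MonoidAlgebra.induction_linear with
  | zero => rw [map_zero]; rfl
  | add f g hf hg =>
    rw [map_add, coeff_add, Finsupp.add_apply, MonoidAlgebra.coeff_add, Finsupp.add_apply,
      ← hf, ← hg]
    rfl
  | single h d =>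
    rw [grHom_single, coeff_single_apply, MonoidAlgebra.coeff_single, Finsupp.single_apply]
    obtain ⟨b, m⟩ := h
    by_cases hm : m = n
    · subst hm
      rw [if_pos rfl]
      show MonoidAlgebra.coeff (MonoidAlgebra.single b d) a = _
      rw [MonoidAlgebra.coeff_single, Finsupp.single_apply]
      by_cases hb : b = a
      · subst hb
        rw [if_pos rfl, if_pos rfl]
      · rw [if_neg hb, if_neg]
        intro h1
        exact hb (congrArg SemidirectProduct.left h1)
    · rw [if_neg hm, if_neg]
      · rfl
      · intro h1
        exact hm (congrArg SemidirectProduct.right h1)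

theorem grHom_inj : Function.Injective (grHom D A φ) := by
  intro r s hrs
  apply MonoidAlgebra.ext
  ext h
  obtain ⟨a, n⟩ := h
  rw [← coeff_grHom, ← coeff_grHom, hrs]

end

/-! ### torsion-free abelian groups have unique products -/

section

variable (A : Type) [CommGroup A] [IsMulTorsionFree A]

theorem uniq : UniqueProds A where
  uniqueMul_of_nonempty := by
    classical
    intro s t hs ht
    let H : Subgroup A := Subgroup.closure ((s ∪ t : Finset A) : Set A)
    have hfg : Group.FG H := (Group.fg_iff_subgroup_fg H).2 ⟨s ∪ t, rfl⟩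
    have hfm : Monoid.FG H := Group.fg_iff_monoid_fg.1 hfg
    have hU : UniqueProds H := inferInstance
    have hsH : ∀ x ∈ s, x ∈ H := fun x hx =>
      Subgroup.subset_closure (Finset.mem_coe.2 (Finset.mem_union_left _ hx))
    have htH : ∀ x ∈ t, x ∈ H := fun x hx =>
      Subgroup.subset_closure (Finset.mem_coe.2 (Finset.mem_union_right _ hx))
    obtain ⟨x, hx⟩ := hs
    obtain ⟨y, hy⟩ := ht
    obtain ⟨a, ha, b, hb, hab⟩ := UniqueProds.uniqueMul_of_nonempty
      (A := s.subtype (· ∈ H)) (B := t.subtype (· ∈ H))
      ⟨⟨x, hsH x hx⟩, Finset.mem_subtype.2 hx⟩ ⟨⟨y, htH y hy⟩, Finset.mem_subtype.2 hy⟩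
    refine ⟨a, Finset.mem_subtype.1 ha, b, Finset.mem_subtype.1 hb, ?_⟩
    intro c d hc hd hcd
    have h1 := hab (a := ⟨c, hsH c hc⟩) (b := ⟨d, htH d hd⟩) (Finset.mem_subtype.2 hc)
      (Finset.mem_subtype.2 hd) (Subtype.ext hcd)
    exact ⟨congrArg Subtype.val h1.1, congrArg Subtype.val h1.2⟩

theorem isDomain (D : Type) [CommRing D] [IsDomain D] : IsDomain (MonoidAlgebra D A) := by
  have := uniq A
  have : NoZeroDivisors (MonoidAlgebra D A) := inferInstance
  exact NoZeroDivisors.to_isDomain _

end

end Pool.Agent.H86.LP
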