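import Pool.Agent.H86.BC2.Free

/-!
# Iterated actions on trees
-/

set_option autoImplicit false

namespace Pool.Agent.H86.LP

open Pool.Agent.R941.BC (W W_sub W_ext W_le)
open Pool.Agent.H86.BCP
open Pool.Agent.H86.BC2 (TreeIn)

variable {B : ∀ (G : Type) [Group G], Prop}

/-- the smallest class of groups which contains the groups in `W B` and is closed under actions on trees
without inversions, and under extensions with quotient in `W B` without torsion -/
inductive Hier (B : ∀ (G : Type) [Group G], Prop) : ∀ (T : Type) [Group T], Prop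
  | base (T : Type) [Group T] : W B T → Hier B T
  | tree (T V : Type) [Group T] [MulAction T V] (X : SimpleGraph V) : X.IsTree →
      (∀ (g : T) (u v : V), X.Adj u v → X.Adj (g • u) (g • v)) →
      (∀ (g : T) (u v : V), X.Adj u v → ¬ (g • u = v ∧ g • v = u)) →
      (∀ v : V, Hier B (MulAction.stabilizer T v)) → Hier B T
  | ext (T : Type) [Group T] (N : Subgroup T) [N.Normal] : Hier B N → W B (T ⧸ N) →
      (∀ (x : T) (n : ℕ), 0 < n → x ^ n ∈ N → x ∈ N) → Hier B T

theorem hier_of_treeIn {T : Type} [Group T] (h : TreeIn B T) : Hier B T := by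
  obtain ⟨V, act, X, h1, h2, h3, h4⟩ := h
  exact Hier.tree T V X h1 h2 h3 fun v => Hier.base _ (h4 v)

theorem hier_sub {T : Type} [Group T] (hT : Hier B T) : ∀ (S : Type) [Group S] (f : S →* T),
    Function.Injective f → Hier B S := by
  induction hT with
  | base T hT => exact fun S _ f hf => Hier.base S (W_sub _ _ f hf hT)
  | @tree T V _ _ X h1 h2 h3 h4 ih =>
    intro S _ f hf
    let _ : MulAction S V := MulAction.compHom V f
    refine Hier.tree S V X h1 (fun g => h2 (f g)) (fun g => h3 (f g)) fun v => ?_
    refine ih v _ (MonoidHom.mk' (fun g : MulAction.stabilizer S v =>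
      (⟨f g.1, g.2⟩ : MulAction.stabilizer T v)) fun a b => Subtype.ext (map_mul f _ _)) ?_
    intro a b hab
    exact Subtype.ext (hf (congrArg Subtype.val hab))
  | @ext T _ N _ h1 h2 h3 ih =>
    intro S _ f hf
    have hle : N.comap f = (N.comap f) := rfl
    refine Hier.ext S (N.comap f) ?_ ?_ fun x n hn hx => h3 (f x) n hn ?_
    · refine ih _ (f.subgroupComap N) ?_
      intro a b hab
      exact Subtype.ext (hf (congrArg Subtype.val hab))
    · refine W_sub _ (T ⧸ N) (QuotientGroup.map _ _ f le_rfl) ?_ h2
      rw [← MonoidHom.ker_eq_bot_iff, eq_bot_iff]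
      intro x hx
      obtain ⟨s, rfl⟩ := QuotientGroup.mk_surjective x
      rw [MonoidHom.mem_ker, QuotientGroup.map_mk, QuotientGroup.eq_one_iff] at hx
      rw [Subgroup.mem_bot, QuotientGroup.eq_one_iff]
      exact hx
    · have h4 : x ^ n ∈ N.comap f := hx
      rw [Subgroup.mem_comap, map_pow] at h4
      exact h4

/-- every countable group with a homomorphism to `T` with kernel in `W B` is in `B` -/
def Gd (B : ∀ (G : Type) [Group G], Prop) (T : Type) [Group T] : Prop :=
  ∀ (G : Type) [Group G] [Countable G] (f : G →* T), W B f.ker → B G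

theorem gd_one (h : InheritBC B) (T : Type) [Group T] [Subsingleton T] : Gd B T := by
  intro G _ _ f hk
  refine W_le G (W_hom h f hk (W_solv h T ?_))
  exact Group.isSolvable_of_comm fun a b => Subsingleton.elim _ _

theorem gd_of_inj {T S : Type} [Group T] [Group S] (e : S →* T)
    (he : Function.Injective e) (hT : Gd B T) : Gd B S := by
  intro G _ _ f hk
  refine hT G (e.comp f) (W_sub _ f.ker (MonoidHom.mk' (fun g : (e.comp f).ker =>
    (⟨g.1, he ((show e (f g.1) = 1 from g.2).trans (map_one e).symm)⟩ : f.ker))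
      fun _ _ => rfl) ?_ hk)
  intro a b hab
  exact Subtype.ext (congrArg (fun z : f.ker => (z : G)) hab)

theorem gd_prod (h : InheritBC B) {T : Type} [Group T] (hT : Hier B T) :
    ∀ (Y : Type) [Group Y], Gd B Y → Gd B (T × Y) := by
  induction hT with
  | base T hT =>
    intro Y _ hY G _ _ f hk
    refine hY G ((MonoidHom.snd _ Y).comp f) ?_
    refine W_hom h (((MonoidHom.fst _ Y).comp f).comp (Subgroup.subtype _)) ?_ hT
    refine W_sub _ f.ker (MonoidHom.mk' (fun g => (⟨g.1.1, Prod.ext ?_ ?_⟩ : f.ker))
      fun _ _ => rfl) ?_ hk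
    · exact g.2
    · exact g.1.2
    · intro a b hab
      exact Subtype.ext (Subtype.ext (congrArg (fun z : f.ker => (z : G)) hab))
  | @tree T V _ _ X h1 h2 h3 h4 ih =>
    intro Y _ hY G _ _ f hk
    let _ : MulAction G V := MulAction.compHom V ((MonoidHom.fst T Y).comp f)
    refine h.tree G V X h1 (fun g => h2 (f g).1) (fun g => h3 (f g).1) fun v => ?_
    let F : MulAction.stabilizer G v →* (MulAction.stabilizer T v) × Y :=
      MonoidHom.mk' (fun g => (⟨(f g.1).1, g.2⟩, (f g.1).2)) fun a b =>
        Prod.ext (Subtype.ext (congrArg Prod.fst (map_mul f a.1 b.1)))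
          (show (f (a.1 * b.1)).2 = (f a.1).2 * (f b.1).2 from congrArg Prod.snd (map_mul f a.1 b.1))
    refine ih v Y hY _ F ?_
    refine W_sub _ f.ker (MonoidHom.mk' (fun g => (⟨g.1.1, ?_⟩ : f.ker)) fun _ _ => rfl) ?_ hk
    · have hg : F g.1 = 1 := g.2
      exact Prod.ext (congrArg (fun z => z.1.1) hg) (congrArg (fun z => z.2) hg)
    · intro a b hab
      exact Subtype.ext (Subtype.ext (congrArg (fun z : f.ker => (z : G)) hab))
  | @ext T _ N _ h1 h2 h3 ih =>
    intro Y _ hY G _ _ f hk
    let p : G →* T ⧸ N := (QuotientGroup.mk' N).comp ((MonoidHom.fst T Y).comp f)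
    have hmem : ∀ g : G, g ∈ p.ker ↔ (f g).1 ∈ N := fun g => by
      rw [MonoidHom.mem_ker]
      exact QuotientGroup.eq_one_iff _
    have hB : B p.ker := by
      let F : p.ker →* N × Y :=
        MonoidHom.mk' (fun g => (⟨(f g.1).1, (hmem g.1).1 g.2⟩, (f g.1).2)) fun a b =>
          Prod.ext (Subtype.ext (congrArg Prod.fst (map_mul f a.1 b.1)))
            (show (f (a.1 * b.1)).2 = (f a.1).2 * (f b.1).2 from
              congrArg Prod.snd (map_mul f a.1 b.1))
      refine ih Y hY _ F ?_
      refine W_sub _ f.ker (MonoidHom.mk' (fun g => (⟨g.1.1, ?_⟩ : f.ker)) fun _ _ => rfl) ?_ hk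
      · have hg : F g.1 = 1 := g.2
        exact Prod.ext (congrArg (fun z => z.1.1) hg) (congrArg (fun z => z.2) hg)
      · intro a b hab
        exact Subtype.ext (Subtype.ext (congrArg (fun z : f.ker => (z : G)) hab))
    refine h.ext G p.ker ?_ fun H hH hi => ?_
    · have : Countable (G ⧸ p.ker) := QuotientGroup.mk_surjective.countable
      exact W_le _ (W_sub _ (T ⧸ N) (QuotientGroup.kerLift p) (QuotientGroup.kerLift_injective p) h2)
    · have h5 : H = p.ker := by
        refine le_antisymm (fun x hx => ?_) hH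
        obtain ⟨n, hn, -, hxn⟩ := Subgroup.exists_pow_mem_of_relIndex_ne_zero hi hx
        have hxn := (Subgroup.mem_inf.1 hxn).1
        rw [hmem] at hxn ⊢
        refine h3 _ n hn ?_
        rw [map_pow, Prod.pow_fst] at hxn
        exact hxn
      rw [h5]
      exact hB

theorem gd_pi (h : InheritBC B) (ι : Type) [Finite ι] : ∀ (T : ι → Type) [∀ i, Group (T i)],
    (∀ i, Hier B (T i)) → Gd B (∀ i, T i) := by
  induction ι using Finite.induction_empty_option with
  | @of_equiv X Y e ih =>
    intro T _ hT
    refine gd_of_inj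
      { toFun := fun u x => u (e x)
        map_one' := rfl
        map_mul' := fun _ _ => rfl } ?_ (ih (fun x => T (e x)) fun x => hT (e x))
    intro u v h
    funext y
    obtain ⟨x, rfl⟩ := e.surjective y
    exact congrFun h x
  | h_empty => intro T _ _; exact gd_one h _
  | @h_option X _ ih =>
    intro T _ hT
    refine gd_of_inj
      { toFun := fun u => (u none, fun x => u (some x))
        map_one' := rfl
        map_mul' := fun _ _ => rfl } ?_
      (gd_prod h (hT none) _ (ih (fun x => T (some x)) fun x => hT (some x)))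
    intro u v h
    funext o
    cases o with
    | none => exact congrArg Prod.fst h
    | some x => exact congrFun (congrArg Prod.snd h) x

end Pool.Agent.H86.LP
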