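import Pool.Agent.H86.LP.Unit

/-!
# Skew Laurent polynomial rings over division rings
-/

set_option autoImplicit false

namespace Pool.Agent.H86.LP

open Pool.Agent.R941.BC (W W_sub W_ext W_le)
open Pool.Agent.H86.BCP
open Pool.Agent.H86.BC2 (mul_ent Dg Gen gen_top treeIn W_top_hom TreeIn)
open SkewMonoidAlgebra

/-- the ring of skew Laurent polynomials `∑ a_n t^n`, where `t a = (t • a) t` -/
abbrev Lau (k : Type) [DivisionRing k] [MulSemiringAction (Multiplicative ℤ) k] : Type :=
  SkewMonoidAlgebra k (Multiplicative ℤ)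

variable {k : Type} [DivisionRing k] [MulSemiringAction (Multiplicative ℤ) k]

/-- the coefficient of `t ^ n` -/
def cf (r : Lau k) (n : ℤ) : k := r.coeff (Multiplicative.ofAdd n)

/-- the monomial `a t ^ n` -/
noncomputable def mon (n : ℤ) (a : k) : Lau k := single (Multiplicative.ofAdd n) a

theorem cf_ext {r s : Lau k} (h : ∀ n, cf r n = cf s n) : r = s :=
  SkewMonoidAlgebra.ext fun a => h a.toAdd

theorem cf_add (r s : Lau k) (n : ℤ) : cf (r + s) n = cf r n + cf s n := by
  unfold cf
  rw [coeff_add, Finsupp.add_apply]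

theorem cf_neg (r : Lau k) (n : ℤ) : cf (-r) n = -cf r n := by
  unfold cf
  rw [coeff_neg, Finsupp.neg_apply]

theorem cf_sub (r s : Lau k) (n : ℤ) : cf (r - s) n = cf r n - cf s n := by
  rw [sub_eq_add_neg, cf_add, cf_neg, sub_eq_add_neg]

theorem cf_zero (n : ℤ) : cf (0 : Lau k) n = 0 := rfl

theorem cf_mon (n m : ℤ) (a : k) : cf (mon n a) m = if n = m then a else 0 := by
  classical
  unfold cf mon
  rw [coeff_single_apply]
  rfl

theorem mon_mul (n m : ℤ) (a b : k) :
    mon n a * mon m b = mon (n + m) (a * (Multiplicative.ofAdd n • b)) := by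
  unfold mon
  rw [single_mul_single, ofAdd_add]

theorem one_eq : (1 : Lau k) = mon 0 1 := rfl

theorem cf_mul_ne {r s : Lau k} {l : ℤ} (h : cf (r * s) l ≠ 0) :
    ∃ i j, i + j = l ∧ cf r i ≠ 0 ∧ cf s j ≠ 0 := by
  classical
  unfold cf at h
  rw [coeff_mul, sum_def', ] at h
  obtain ⟨a, ha, h1⟩ := Finset.exists_ne_zero_of_sum_ne_zero h
  rw [sum_def'] at h1
  obtain ⟨b, hb, h2⟩ := Finset.exists_ne_zero_of_sum_ne_zero h1
  split_ifs at h2 with h3
  · refine ⟨a.toAdd, b.toAdd, ?_, ?_, ?_⟩
    · rw [← toAdd_mul, h3]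
      rfl
    · exact left_ne_zero_of_mul h2
    · intro h4
      apply right_ne_zero_of_mul h2
      have h5 : s.coeff b = 0 := h4
      rw [h5, smul_zero]
  · exact absurd rfl h2

theorem cf_mul_top {r s : Lau k} {n m : ℤ}
    (h : ∀ i j, i + j = n + m → cf r i ≠ 0 → cf s j ≠ 0 → i = n ∧ j = m) :
    cf (r * s) (n + m) = cf r n * (Multiplicative.ofAdd n • cf s m) := by
  classical
  unfold cf
  rw [coeff_mul, sum_def']
  rw [Finset.sum_eq_single (Multiplicative.ofAdd n)]
  · rw [sum_def', Finset.sum_eq_single (Multiplicative.ofAdd m)]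
    · rw [if_pos (by rw [ofAdd_add])]
    · intro b hb hne
      rw [if_neg]
      intro h1
      apply hne
      rw [ofAdd_add] at h1
      exact mul_left_cancel h1
    · intro hb
      have h1 : s.coeff (Multiplicative.ofAdd m) = 0 := by
        by_contra h2
        exact hb (mem_support_iff.2 h2)
      rw [h1, smul_zero, mul_zero, ite_self]
  · intro a ha hne
    rw [sum_def']
    refine Finset.sum_eq_zero fun b hb => ?_
    rw [if_neg]
    intro h1
    apply hne
    have h2 := h a.toAdd b.toAdd (by rw [← toAdd_mul, h1]; rfl) (mem_support_iff.1 ha)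
      (mem_support_iff.1 hb)
    exact h2.1
  · intro ha
    have h1 : r.coeff (Multiplicative.ofAdd n) = 0 := by
      by_contra h2
      exact ha (mem_support_iff.2 h2)
    rw [sum_def']
    refine Finset.sum_eq_zero fun b hb => ?_
    rw [h1, zero_mul, ite_self]

/-- the elements of degree at most `n`: the degree in `t` for `e = 1`, the degree in `1 / t` for
`e = -1` -/
def Fl (e : ℤ) (n : ℤ) : AddSubgroup (Lau k) where
  carrier := {r | ∀ m, n < e * m → cf r m = 0}
  zero_mem' := fun _ _ => rfl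
  add_mem' := by
    intro r s hr hs m hm
    rw [cf_add, hr m hm, hs m hm, add_zero]
  neg_mem' := by
    intro r hr m hm
    rw [cf_neg, hr m hm, neg_zero]

theorem mem_Fl {e n : ℤ} {r : Lau k} : r ∈ Fl e n ↔ ∀ m, n < e * m → cf r m = 0 := Iff.rfl

theorem mon_mem {e n m : ℤ} (a : k) (h : e * n ≤ m) : mon n a ∈ Fl e m := by
  intro l hl
  rw [cf_mon, if_neg]
  rintro rfl
  omega

theorem ee {e : ℤ} (he : e = 1 ∨ e = -1) (n : ℤ) : e * (e * n) = n := by
  rcases he with rfl | rfl <;> ring

theorem top_ne {e : ℤ} (he : e = 1 ∨ e = -1) {n : ℤ} {r : Lau k} (h : r ∈ Fl e n)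
    (h' : r ∉ Fl e (n - 1)) : cf r (e * n) ≠ 0 := by
  intro h0
  apply h'
  intro m hm
  by_cases h1 : n < e * m
  · exact h m h1
  · have h2 : e * m = n := by omega
    rw [← h2, ee he] at h0
    exact h0

theorem filt {e : ℤ} (he : e = 1 ∨ e = -1) : Filt (R := Lau k) (Fl e) where
  mono n m hnm r hr l hl := hr l (by omega)
  mul n m a b ha hb := by
    intro l hl
    by_contra hne
    obtain ⟨i, j, hij, h1, h2⟩ := cf_mul_ne hne
    have h3 : e * i ≤ n := by
      by_contra hc
      exact h1 (ha i (by omega))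
    have h4 : e * j ≤ m := by
      by_contra hc
      exact h2 (hb j (by omega))
    have h5 : e * l = e * i + e * j := by rw [← hij]; ring
    omega
  one := by
    rw [one_eq]
    exact mon_mem _ (by omega)
  one' := by
    intro h
    have h1 := h 0 (by omega)
    rw [one_eq, cf_mon, if_pos rfl] at h1
    exact one_ne_zero h1
  dom n m a b ha hb hab := by
    by_contra hcon
    push Not at hcon
    have h1 := top_ne he ha hcon.1
    have h2 := top_ne he hb hcon.2
    have h3 : cf (a * b) (e * n + e * m) = 0 := by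
      apply hab
      rw [mul_add, ee he, ee he]
      omega
    rw [cf_mul_top] at h3
    · rcases mul_eq_zero.1 h3 with h4 | h4
      · exact h1 h4
      · exact h2 ((smul_eq_zero_iff_eq _).1 h4)
    · intro i j hij hi hj
      have h5 : e * i ≤ n := by
        by_contra hc
        exact hi (ha i (by omega))
      have h6 : e * j ≤ m := by
        by_contra hc
        exact hj (hb j (by omega))
      have h7 : e * i + e * j = n + m := by
        have h8 : e * (i + j) = e * (e * n + e * m) := by rw [hij]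
        rw [mul_add, mul_add, ee he, ee he] at h8
        exact h8
      have h8 : e * i = n := by omega
      have h9 : e * j = m := by omega
      constructor
      · rw [← h8, ee he]
      · rw [← h9, ee he]

theorem ex_Fl (e : ℤ) (he : e = 1 ∨ e = -1) (r : Lau k) : ∃ N : ℕ, r ∈ Fl e N := by
  classical
  refine ⟨r.support.sup fun a => a.toAdd.natAbs, fun m hm => ?_⟩
  by_contra hne
  have h1 : Multiplicative.ofAdd m ∈ r.support := mem_support_iff.2 hne
  have h2 := Finset.le_sup (f := fun a : Multiplicative ℤ => a.toAdd.natAbs) h1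
  have h3 : (Multiplicative.ofAdd m).toAdd.natAbs = m.natAbs := rfl
  have h4 : m.natAbs ≤ r.support.sup fun a : Multiplicative ℤ => a.toAdd.natAbs := h2
  rcases he with rfl | rfl <;> omega

/-- the exact degree -/
theorem ex_deg {e : ℤ} (he : e = 1 ∨ e = -1) {r : Lau k} (hr : r ≠ 0) :
    ∃ n, r ∈ Fl e n ∧ r ∉ Fl e (n - 1) := by
  have h0 : ∃ m, cf r m ≠ 0 := by
    by_contra hc
    push Not at hc
    exact hr (cf_ext hc)
  obtain ⟨m, hm⟩ := h0
  obtain ⟨N, hN⟩ := ex_Fl e he r
  obtain ⟨n, hn, hmin⟩ := Int.exists_least_of_bdd (P := fun n => r ∈ Fl e n)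
    ⟨e * m, fun z hz => by
      by_contra hc
      exact hm (hz m (by omega))⟩ ⟨N, hN⟩
  refine ⟨n, hn, fun h => ?_⟩
  have := hmin _ h
  omega

instance : NoZeroDivisors (Lau k) where
  eq_zero_or_eq_zero_of_mul_eq_zero := by
    intro r s h
    by_contra hc
    push Not at hc
    obtain ⟨n, h1, h2⟩ := ex_deg (Or.inl rfl) hc.1
    obtain ⟨m, h3, h4⟩ := ex_deg (Or.inl rfl) hc.2
    rcases (filt (k := k) (Or.inl rfl)).dom n m r s h1 h3 (by rw [h]; exact AddSubgroup.zero_mem _)
      with h5 | h5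
    · exact h2 h5
    · exact h4 h5

/-- the ring of polynomials in `1 / t` -/
noncomputable abbrev OO (k : Type) [DivisionRing k] [MulSemiringAction (Multiplicative ℤ) k] : Subring (Lau k) :=
  ringO (filt (k := k) (e := 1) (Or.inl rfl))

theorem mem_OO {r : Lau k} : r ∈ OO k ↔ ∀ m, 0 < m → cf r m = 0 := by
  show (∀ m, 0 < 1 * m → cf r m = 0) ↔ _
  simp only [one_mul]

/-- constants -/
noncomputable def cc : k →+* OO k where
  toFun a := ⟨mon 0 a, mon_mem _ (by omega)⟩
  map_one' := rfl
  map_mul' a b := by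
    apply Subtype.ext
    show mon 0 (a * b) = mon 0 a * mon 0 b
    rw [mon_mul, ofAdd_zero, one_smul, add_zero]
  map_zero' := by
    apply Subtype.ext
    exact cf_ext fun n => by rw [cf_mon, ite_self]; rfl
  map_add' a b := by
    apply Subtype.ext
    refine cf_ext fun n => ?_
    show cf (mon 0 (a + b)) n = cf (mon 0 a + mon 0 b) n
    rw [cf_add, cf_mon, cf_mon, cf_mon]
    split_ifs
    · rfl
    · rw [add_zero]

open Classical in
/-- the degree in `1 / t` -/
noncomputable def dd (r : OO k) : ℕ := Nat.find (ex_Fl (-1) (Or.inr rfl) r.1)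

theorem dd_le {r : OO k} {N : ℕ} : dd r ≤ N ↔ r.1 ∈ Fl (-1) N := by
  classical
  unfold dd
  rw [Nat.find_le_iff]
  constructor
  · rintro ⟨M, hM, h⟩
    exact (filt (k := k) (e := -1) (Or.inr rfl)).mono _ _ (by exact_mod_cast hM) h
  · exact fun h => ⟨N, le_rfl, h⟩

theorem dd_mem (r : OO k) : r.1 ∈ Fl (-1) (dd r) := dd_le.1 le_rfl

theorem dd_not {r : OO k} (hr : r ≠ 0) : r.1 ∉ Fl (-1) ((dd r : ℤ) - 1) := by
  intro h
  obtain ⟨N, hN⟩ | h0 : (∃ N, dd r = N + 1) ∨ dd r = 0 := by
    cases h : dd r with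
    | zero => exact Or.inr rfl
    | succ N => exact Or.inl ⟨N, rfl⟩
  · rw [hN] at h
    push_cast at h
    rw [add_sub_cancel_right] at h
    have := dd_le.2 h
    omega
  · rw [h0] at h
    apply hr
    apply Subtype.ext
    refine cf_ext fun m => ?_
    show cf r.1 m = 0
    by_cases hm : 0 < m
    · exact mem_OO.1 r.2 m hm
    · exact h m (by push_cast; omega)

theorem dgO : Dg (cc : k →+* OO k) dd where
  const a := Nat.le_zero.1 (dd_le.2 (mon_mem _ (by omega)))
  mem r hr := by
    refine ⟨cf r.1 0, ?_⟩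
    apply Subtype.ext
    refine cf_ext fun m => ?_
    show cf (mon 0 (cf r.1 0)) m = cf r.1 m
    rw [cf_mon]
    split_ifs with h
    · rw [h]
    · symm
      by_cases hm : 0 < m
      · exact mem_OO.1 r.2 m hm
      · exact dd_mem r m (by rw [hr]; push_cast; omega)
  add r s := by
    rw [dd_le]
    show r.1 + s.1 ∈ _
    refine AddSubgroup.add_mem _ ?_ ?_
    · exact dd_le.1 (le_max_left _ _)
    · exact dd_le.1 (le_max_right _ _)
  mul r s hr hs := by
    apply le_antisymm
    · rw [dd_le]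
      show r.1 * s.1 ∈ _
      push_cast
      exact (filt (Or.inr rfl)).mul _ _ _ _ (dd_mem r) (dd_mem s)
    · by_contra hc
      have h1 : (r * s).1 ∈ Fl (-1) ((dd r : ℤ) + dd s - 1) :=
        (filt (k := k) (e := -1) (Or.inr rfl)).mono _ _ (by omega) (dd_mem (r * s))
      rcases (filt (k := k) (Or.inr rfl)).dom _ _ r.1 s.1 (dd_mem r) (dd_mem s) h1 with h2 | h2
      · exact dd_not hr h2
      · exact dd_not hs h2

theorem genO : Gen (cc : k →+* OO k) = ⊤ := by
  refine gen_top dgO ?_
  intro a b x y hx ha hb hxy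
  have ha0 : a ≠ 0 := by
    rintro rfl
    rw [(dgO (k := k)).zero] at ha
    omega
  have hb0 : b ≠ 0 := by
    rintro rfl
    rw [zero_mul] at hxy
    rcases mul_eq_zero.1 hxy with h | h
    · exact ha0 h
    · exact hx h
  obtain ⟨n, hn⟩ : ∃ n, dd a = n := ⟨_, rfl⟩
  obtain ⟨m, hm⟩ : ∃ m, dd b = m := ⟨_, rfl⟩
  have hbm : cf b.1 (-m) ≠ 0 := by
    have h1 := top_ne (e := -1) (Or.inr rfl) (dd_mem b) (dd_not hb0)
    rw [hm] at h1
    simpa using h1
  let q : Lau k := mon (m - n) (Multiplicative.ofAdd (m : ℤ) • ((cf b.1 (-m))⁻¹ * cf a.1 (-n)))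
  have hq : q ∈ OO k := mon_mem _ (by omega)
  refine ⟨⟨q, hq⟩, ?_⟩
  have h1 : cf (b.1 * q) (-m + (m - n)) = cf a.1 (-n) := by
    rw [cf_mul_top]
    · show _ * (_ • cf (mon _ _) _) = _
      rw [cf_mon, if_pos rfl, smul_smul, ← ofAdd_add, neg_add_cancel, ofAdd_zero, one_smul,
        mul_inv_cancel_left₀ hbm]
    · intro i j hij hi hj
      have h2 : j = m - n := by
        by_contra hne
        apply hj
        show cf (mon _ _) j = 0
        rw [cf_mon, if_neg (fun h => hne h.symm)]
      exact ⟨by omega, h2⟩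
  have h2 : (-(m : ℤ) + (m - n)) = -n := by ring
  rw [h2] at h1
  have h3 : (a - b * ⟨q, hq⟩).1 ∈ Fl (-1) n := by
    show a.1 - b.1 * q ∈ _
    refine AddSubgroup.sub_mem _ ?_ ?_
    · rw [← hn]
      exact dd_mem a
    · have h4 : b.1 ∈ Fl (-1) m := by rw [← hm]; exact dd_mem b
      exact (filt (Or.inr rfl)).mul' h4 (mon_mem _ (le_refl _)) (by omega)
  have h4 : cf (a - b * ⟨q, hq⟩).1 (-n) = 0 := by
    show cf (a.1 - b.1 * q) (-n) = 0
    rw [cf_sub, h1, sub_self]
  have hn0 : 0 < n := by omega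
  have h5 : dd (a - b * ⟨q, hq⟩) ≤ n - 1 := by
    rw [dd_le]
    by_contra hc
    have h6 : (((n - 1 : ℕ) : ℤ)) = (n : ℤ) - 1 := by omega
    rw [h6] at hc
    have h7 := top_ne (e := -1) (Or.inr rfl) h3 hc
    rw [neg_one_mul] at h7
    exact h7 h4
  omega

variable {B : ∀ (G : Type) [Group G], Prop}

theorem hierO (h : InheritBC B) (hK : W B (Matrix.GeneralLinearGroup (Fin 2) k)) :
    Hier B (Matrix.GeneralLinearGroup (Fin 2) (OO k)) := by
  have h1 : TreeIn B (Gen (cc : k →+* OO k)) := treeIn dgO h hK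
  exact hier_of_treeIn (W_top_hom ((MulEquiv.subgroupCongr genO).trans Subgroup.topEquiv) h1)

end Pool.Agent.H86.LP
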