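import Pool.Agent.H86.LP.Grp

/-!
# Matrices of degree two over skew Laurent polynomial rings and group rings
-/

set_option autoImplicit false

namespace Pool.Agent.H86.LP

open Pool.Agent.R941.BC (W W_sub W_ext W_le)
open Pool.Agent.H86.BCP
open SkewMonoidAlgebra

/-- skew Laurent polynomial rings over division rings -/
def LaurentRings (B : ∀ (G : Type) [Group G], Prop) : Prop :=
  ∀ (k : Type) [DivisionRing k] [MulSemiringAction (Multiplicative ℤ) k],
    W B (GL (Fin 2) k) → Hier B (GL (Fin 2) (SkewMonoidAlgebra k (Multiplicative ℤ)))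

/-- skew Laurent polynomial rings over commutative domains -/
def LaurentDomains (B : ∀ (G : Type) [Group G], Prop) : Prop :=
  ∀ (R : Type) [CommRing R] [IsDomain R] [MulSemiringAction (Multiplicative ℤ) R],
    W B (GL (Fin 2) (FractionRing R)) →
      Hier B (GL (Fin 2) (SkewMonoidAlgebra R (Multiplicative ℤ)))

/-- group rings of the groups `A ⋊ ℤ`, where `A` is abelian without torsion -/
def GroupRings (B : ∀ (G : Type) [Group G], Prop) : Prop :=
  ∀ (D A : Type) [CommRing D] [IsDomain D] [CommGroup A] [IsMulTorsionFree A]
    (φ : Multiplicative ℤ →* MulAut A), W B (GL (Fin 2) (FractionRing (MonoidAlgebra D A))) →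
      Hier B (GL (Fin 2) (MonoidAlgebra D (A ⋊[φ] Multiplicative ℤ)))

/-- finite families of groups with iterated actions on trees -/
def Products (B : ∀ (G : Type) [Group G], Prop) : Prop :=
  ∀ (ι : Type) [Finite ι] (T : ι → Type) [∀ i, Group (T i)], (∀ i, Hier B (T i)) →
    ∀ (G : Type) [Group G] [Countable G] (f : ∀ i, G →* T i), W B (⨅ i, (f i).ker : Subgroup G) →
      B G

/-- finite families of group rings, for classes with the linear groups of degree two over fields -/
def Families (B : ∀ (G : Type) [Group G], Prop) : Prop :=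
  (∀ (K : Type) [Field K], W B (GL (Fin 2) K)) →
    ∀ (ι : Type) [Finite ι] (D A : ι → Type) [∀ i, CommRing (D i)] [∀ i, IsDomain (D i)]
      [∀ i, CommGroup (A i)] [∀ i, IsMulTorsionFree (A i)]
      (φ : ∀ i, Multiplicative ℤ →* MulAut (A i)) (G : Type) [Group G] [Countable G]
      (f : ∀ i, G →* GL (Fin 2) (MonoidAlgebra (D i) (A i ⋊[φ i] Multiplicative ℤ))),
      W B (⨅ i, (f i).ker : Subgroup G) → B G

variable {B : ∀ (G : Type) [Group G], Prop}

/-- the homomorphism of the groups of matrices -/
def glMap {R S : Type} [Ring R] [Ring S] (f : R →+* S) : GL (Fin 2) R →* GL (Fin 2) S :=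
  Units.map (RingHom.mapMatrix f).toMonoidHom

theorem glMap_inj {R S : Type} [Ring R] [Ring S] {f : R →+* S} (hf : Function.Injective f) :
    Function.Injective (glMap f) := by
  refine Units.map_injective ?_
  intro x y hxy
  ext i j
  exact hf (congrFun (congrFun hxy i) j)

/-! ### domains -/

section

variable (R : Type) [CommRing R] [IsDomain R] [MulSemiringAction (Multiplicative ℤ) R]

/-- the field of fractions of `R` with the action of `ℤ` -/
def FF (R : Type) [CommRing R] : Type := FractionRing R

noncomputable instance : Field (FF R) := inferInstanceAs (Field (FractionRing R))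

noncomputable instance : Algebra R (FF R) := inferInstanceAs (Algebra R (FractionRing R))

instance : IsFractionRing R (FF R) := inferInstanceAs (IsFractionRing R (FractionRing R))

/-- the action of `ℤ` on the field of fractions -/
noncomputable def ffHom : Multiplicative ℤ →* RingAut (FF R) :=
  (IsFractionRing.ringEquivOfRingEquivHom R (FF R)).comp
    (MulSemiringAction.toRingAut (Multiplicative ℤ) R)

noncomputable instance : MulSemiringAction (Multiplicative ℤ) (FF R) :=
  MulSemiringAction.compHom _ (ffHom R)

theorem ff_smul (n : Multiplicative ℤ) (r : R) :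
    algebraMap R (FF R) (n • r) = n • algebraMap R (FF R) r := by
  symm
  show IsFractionRing.ringEquivOfRingEquiv (MulSemiringAction.toRingAut (Multiplicative ℤ) R n)
    (algebraMap R (FF R) r) = _
  rw [IsFractionRing.ringEquivOfRingEquiv_algebraMap]
  rfl

variable {R}

theorem hierD (h : InheritBC B) (hK : W B (GL (Fin 2) (FractionRing R))) :
    Hier B (GL (Fin 2) (SkewMonoidAlgebra R (Multiplicative ℤ))) := by
  have h1 : Hier B (GL (Fin 2) (Lau (FF R))) := hierL h hK
  exact hier_sub h1 _ (glMap (mp (algebraMap R (FF R)) (ff_smul R)))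
    (glMap_inj (mp_inj _ _ (IsFractionRing.injective R (FF R))))

end

theorem laurentRings (h : InheritBC B) : LaurentRings B := fun _ _ _ hK => hierL h hK

theorem laurentDomains (h : InheritBC B) : LaurentDomains B := fun _ _ _ _ hK => hierD h hK

theorem groupRings (h : InheritBC B) : GroupRings B := by
  intro D A _ _ _ _ φ hK
  have : IsDomain (GR D A φ) := isDomain A D
  have h1 : Hier B (GL (Fin 2) (SkewMonoidAlgebra (GR D A φ) (Multiplicative ℤ))) := hierD h hK
  exact hier_sub h1 _ (glMap (grHom D A φ)) (glMap_inj (grHom_inj D A φ))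

theorem products (h : InheritBC B) : Products B := by
  intro ι _ T _ hT G _ _ f hk
  refine gd_pi h ι T hT G (MonoidHom.pi f) ?_
  have h1 : (MonoidHom.pi f).ker = ⨅ i, (f i).ker := by
    ext g
    rw [MonoidHom.mem_ker, Subgroup.mem_iInf]
    constructor
    · intro hg i
      exact congrFun hg i
    · intro hg
      funext i
      exact hg i
  rw [h1]
  exact hk

theorem families (h : InheritBC B) : Families B := by
  intro hF ι _ D A _ _ _ _ φ G _ _ f hk
  refine products h ι (fun i => GL (Fin 2) (MonoidAlgebra (D i) (A i ⋊[φ i] Multiplicative ℤ)))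
    (fun i => groupRings h (D i) (A i) (φ i) ?_) G f hk
  have := isDomain (A i) (D i)
  exact hF _

end Pool.Agent.H86.LP
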