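import Pool.Agent.H86.LP.BT

/-!
# Filtered rings with a unit of degree one
-/

set_option autoImplicit false

namespace Pool.Agent.H86.LP

open Pool.Agent.R941.BC (W W_sub W_ext W_le)
open Pool.Agent.H86.BCP
open Pool.Agent.H34.PT (Deg cg Vt)
open Pool.Agent.H86.BC2 (mul_ent)
open Q30.FJ (el el_val el_add el_inj el_zero)
open Matrix

variable {B : ∀ (G : Type) [Group G], Prop}

theorem hier_of_deg {T : Type} [Group T] {A E : Subgroup T} {n m : T → ℕ}
    (hD : Deg A E n m) (hA : Hier B A) (hE : Hier B E) : Hier B T := by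
  refine Hier.tree T (Vt A E) (cg A E) hD.isTree hD.treeAct.adj hD.treeAct.noInv ?_
  rintro (x | x)
  · obtain ⟨g, rfl⟩ := QuotientGroup.mk_surjective x
    have h1 : ∀ u : MulAction.stabilizer T (Sum.inl (g : T ⧸ A) : Vt A E),
        g⁻¹ * u.1 * g ∈ A := by
      rintro ⟨u, hu⟩
      have h2 : (Sum.inl ((u * g : T) : T ⧸ A) : Vt A E) = Sum.inl (g : T ⧸ A) := hu
      have h3 := Sum.inl.inj h2
      rw [eq_comm, QuotientGroup.eq] at h3
      rw [mul_assoc]
      exact h3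
    refine hier_sub hA _ (MonoidHom.mk' (fun u => (⟨_, h1 u⟩ : A)) ?_) ?_
    · intro u v
      refine Subtype.ext ?_
      show g⁻¹ * (u.1 * v.1) * g = (g⁻¹ * u.1 * g) * (g⁻¹ * v.1 * g)
      group
    · intro u v huv
      have h3 : g⁻¹ * u.1 * g = g⁻¹ * v.1 * g := congrArg Subtype.val huv
      exact Subtype.ext (mul_left_cancel (mul_right_cancel h3))
  · obtain ⟨g, rfl⟩ := QuotientGroup.mk_surjective x
    have h1 : ∀ u : MulAction.stabilizer T (Sum.inr (g : T ⧸ E) : Vt A E),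
        g⁻¹ * u.1 * g ∈ E := by
      rintro ⟨u, hu⟩
      have h2 : (Sum.inr ((u * g : T) : T ⧸ E) : Vt A E) = Sum.inr (g : T ⧸ E) := hu
      have h3 := Sum.inr.inj h2
      rw [eq_comm, QuotientGroup.eq] at h3
      rw [mul_assoc]
      exact h3
    refine hier_sub hE _ (MonoidHom.mk' (fun u => (⟨_, h1 u⟩ : E)) ?_) ?_
    · intro u v
      refine Subtype.ext ?_
      show g⁻¹ * (u.1 * v.1) * g = (g⁻¹ * u.1 * g) * (g⁻¹ * v.1 * g)
      group
    · intro u v huv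
      have h3 : g⁻¹ * u.1 * g = g⁻¹ * v.1 * g := congrArg Subtype.val huv
      exact Subtype.ext (mul_left_cancel (mul_right_cancel h3))

variable {R : Type} [Ring R] {F : ℤ → AddSubgroup R}

/-- the ring of the elements of degree at most zero -/
def ringO (D : Filt F) : Subring R where
  carrier := F 0
  one_mem' := D.one
  mul_mem' := fun ha hb => D.mul' ha hb (by omega)
  zero_mem' := (F 0).zero_mem
  add_mem' := (F 0).add_mem
  neg_mem' := (F 0).neg_mem

theorem mem_ringO {D : Filt F} {r : R} : r ∈ ringO D ↔ r ∈ F 0 := Iff.rfl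

/-- matrices over the ring of the elements of degree at most zero -/
def matO (D : Filt F) (g : GL (Fin 2) R) (h : Bd F 0 g) : Matrix (Fin 2) (Fin 2) (ringO D) :=
  Matrix.of fun i j => ⟨g.1 i j, h i j⟩

theorem matO_apply (D : Filt F) (g : GL (Fin 2) R) (h : Bd F 0 g) (i j : Fin 2) :
    ((matO D g h i j : ringO D) : R) = g.1 i j := rfl

theorem matO_mul (D : Filt F) (g g' : GL (Fin 2) R) (h : Bd F 0 g) (h' : Bd F 0 g')
    (h2 : Bd F 0 (g * g')) : matO D g h * matO D g' h' = matO D (g * g') h2 := by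
  refine Matrix.ext fun i j => Subtype.ext ?_
  rw [Matrix.mul_apply, Fin.sum_univ_two, matO_apply, mul_ent]
  rfl

theorem matO_one (D : Filt F) (h : Bd F 0 (1 : GL (Fin 2) R)) : matO D 1 h = 1 := by
  refine Matrix.ext fun i j => Subtype.ext ?_
  rw [matO_apply]
  show (1 : Matrix (Fin 2) (Fin 2) R) i j = _
  rw [Matrix.one_apply, Matrix.one_apply]
  split_ifs <;> rfl

/-- matrices over the ring of the elements of degree at most zero -/
def toO (D : Filt F) (g : A0 D) : GL (Fin 2) (ringO D) where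
  val := matO D g.1 g.2.1
  inv := matO D g.1⁻¹ g.2.2
  val_inv := by
    have h : Bd F 0 (g.1 * g.1⁻¹) := by rw [mul_inv_cancel]; exact (one_mem (A0 D)).1
    rw [matO_mul D _ _ _ _ h]
    have h2 : ∀ x (hx : Bd F 0 x), x = 1 → matO D x hx = 1 := by
      rintro x hx rfl
      exact matO_one D hx
    exact h2 _ _ (mul_inv_cancel _)
  inv_val := by
    have h : Bd F 0 (g.1⁻¹ * g.1) := by rw [inv_mul_cancel]; exact (one_mem (A0 D)).1
    rw [matO_mul D _ _ _ _ h]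
    have h2 : ∀ x (hx : Bd F 0 x), x = 1 → matO D x hx = 1 := by
      rintro x hx rfl
      exact matO_one D hx
    exact h2 _ _ (inv_mul_cancel _)

theorem hier_A0 {D : Filt F} (h : Hier B (GL (Fin 2) (ringO D))) : Hier B (A0 D) := by
  refine hier_sub h _ (MonoidHom.mk' (toO D) fun a b => ?_) fun a b hab => ?_
  · apply Units.ext
    exact (matO_mul D a.1 b.1 a.2.1 b.2.1 (a * b).2.1).symm
  · have hab' : toO D a = toO D b := hab
    apply Subtype.ext
    apply Units.ext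
    ext i j
    have h1 : (((toO D a).1 i j : ringO D) : R) = ((toO D b).1 i j : ringO D) := by rw [hab']
    exact h1

/-- a unit of degree one -/
structure Unif (F : ℤ → AddSubgroup R) (t : Rˣ) : Prop where
  mem : t.1 ∈ F 1
  inv : (t⁻¹).1 ∈ F (-1)

/-- the diagonal matrix -/
def dg (t : Rˣ) : GL (Fin 2) R where
  val := !![t.1, 0; 0, 1]
  inv := !![(t⁻¹).1, 0; 0, 1]
  val_inv := by
    rw [Matrix.mul_fin_two]
    ext i j
    fin_cases i <;> fin_cases j <;> simp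
  inv_val := by
    rw [Matrix.mul_fin_two]
    ext i j
    fin_cases i <;> fin_cases j <;> simp

/-- the matrix which exchanges the vertices of an edge -/
def om (t : Rˣ) : GL (Fin 2) R where
  val := !![0, t.1; 1, 0]
  inv := !![0, 1; (t⁻¹).1, 0]
  val_inv := by
    rw [Matrix.mul_fin_two]
    ext i j
    fin_cases i <;> fin_cases j <;> simp
  inv_val := by
    rw [Matrix.mul_fin_two]
    ext i j
    fin_cases i <;> fin_cases j <;> simp

theorem om_conj (t : Rˣ) (g : GL (Fin 2) R) : (om t * g * (om t)⁻¹).1 =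
    !![t.1 * g.1 1 1 * (t⁻¹).1, t.1 * g.1 1 0; g.1 0 1 * (t⁻¹).1, g.1 0 0] := by
  have h1 : ∀ i j, (om t * g * (om t)⁻¹).1 i j =
      (om t * g).1 i 0 * (!![0, 1; (t⁻¹).1, 0] : Matrix (Fin 2) (Fin 2) R) 0 j +
        (om t * g).1 i 1 * (!![0, 1; (t⁻¹).1, 0] : Matrix (Fin 2) (Fin 2) R) 1 j := fun i j =>
    mul_ent _ _ i j
  have h2 : ∀ i j, (om t * g).1 i j =
      (!![0, t.1; 1, 0] : Matrix (Fin 2) (Fin 2) R) i 0 * g.1 0 j +
        (!![0, t.1; 1, 0] : Matrix (Fin 2) (Fin 2) R) i 1 * g.1 1 j := fun i j => mul_ent _ _ i j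
  ext i j
  rw [h1, h2, h2]
  fin_cases i <;> fin_cases j <;> simp

theorem om_conj' (t : Rˣ) (g : GL (Fin 2) R) : ((om t)⁻¹ * g * om t).1 =
    !![g.1 1 1, g.1 1 0 * t.1; (t⁻¹).1 * g.1 0 1, (t⁻¹).1 * g.1 0 0 * t.1] := by
  have h1 : ∀ i j, ((om t)⁻¹ * g * om t).1 i j =
      ((om t)⁻¹ * g).1 i 0 * (!![0, t.1; 1, 0] : Matrix (Fin 2) (Fin 2) R) 0 j +
        ((om t)⁻¹ * g).1 i 1 * (!![0, t.1; 1, 0] : Matrix (Fin 2) (Fin 2) R) 1 j := fun i j =>
    mul_ent _ _ i j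
  have h2 : ∀ i j, ((om t)⁻¹ * g).1 i j =
      (!![0, 1; (t⁻¹).1, 0] : Matrix (Fin 2) (Fin 2) R) i 0 * g.1 0 j +
        (!![0, 1; (t⁻¹).1, 0] : Matrix (Fin 2) (Fin 2) R) i 1 * g.1 1 j := fun i j => mul_ent _ _ i j
  ext i j
  rw [h1, h2, h2]
  fin_cases i <;> fin_cases j <;> simp

section unif

variable (D : Filt F) {t : Rˣ} (ht : Unif F t)

include D ht

theorem bd_E {g : GL (Fin 2) R} (h : Bd F 0 g) : EE F (om t * g * (om t)⁻¹) := by
  unfold EE
  rw [om_conj]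
  refine ⟨?_, ?_, ?_, ?_⟩
  · exact D.mul' (D.mul' ht.mem (h 1 1) (l := 1) (by omega)) ht.inv (by omega)
  · exact D.mul' ht.mem (h 1 0) (by omega)
  · exact D.mul' (h 0 1) ht.inv (by omega)
  · exact h 0 0

theorem E_bd {g : GL (Fin 2) R} (h : EE F g) : Bd F 0 (om t * g * (om t)⁻¹) := by
  unfold Bd
  rw [om_conj]
  obtain ⟨h0, h1, h2, h3⟩ := h
  intro i j
  fin_cases i <;> fin_cases j
  · exact D.mul' (D.mul' ht.mem h3 (l := 1) (by omega)) ht.inv (by omega)
  · exact D.mul' ht.mem h2 (by omega)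
  · exact D.mul' h1 ht.inv (by omega)
  · exact h0

theorem bd_E' {g : GL (Fin 2) R} (h : Bd F 0 g) : EE F ((om t)⁻¹ * g * om t) := by
  unfold EE
  rw [om_conj']
  refine ⟨?_, ?_, ?_, ?_⟩
  · exact h 1 1
  · exact D.mul' (h 1 0) ht.mem (by omega)
  · exact D.mul' ht.inv (h 0 1) (by omega)
  · exact D.mul' (D.mul' ht.inv (h 0 0) (l := -1) (by omega)) ht.mem (by omega)

theorem E_bd' {g : GL (Fin 2) R} (h : EE F g) : Bd F 0 ((om t)⁻¹ * g * om t) := by
  unfold Bd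
  rw [om_conj']
  obtain ⟨h0, h1, h2, h3⟩ := h
  intro i j
  fin_cases i <;> fin_cases j
  · exact h3
  · exact D.mul' h2 ht.mem (by omega)
  · exact D.mul' ht.inv h1 (by omega)
  · exact D.mul' (D.mul' ht.inv h0 (l := -1) (by omega)) ht.mem (by omega)

theorem A0_E0 {g : GL (Fin 2) R} (h : g ∈ A0 D) : om t * g * (om t)⁻¹ ∈ E0 D := by
  refine ⟨bd_E D ht h.1, ?_⟩
  have h1 : (om t * g * (om t)⁻¹)⁻¹ = om t * g⁻¹ * (om t)⁻¹ := by group
  rw [h1]
  exact bd_E D ht h.2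

theorem E0_A0 {g : GL (Fin 2) R} (h : g ∈ E0 D) : om t * g * (om t)⁻¹ ∈ A0 D := by
  refine ⟨E_bd D ht h.1, ?_⟩
  have h1 : (om t * g * (om t)⁻¹)⁻¹ = om t * g⁻¹ * (om t)⁻¹ := by group
  rw [h1]
  exact E_bd D ht h.2

theorem A0_E0' {g : GL (Fin 2) R} (h : g ∈ A0 D) : (om t)⁻¹ * g * om t ∈ E0 D := by
  refine ⟨bd_E' D ht h.1, ?_⟩
  have h1 : ((om t)⁻¹ * g * om t)⁻¹ = (om t)⁻¹ * g⁻¹ * om t := by group
  rw [h1]
  exact bd_E' D ht h.2

theorem E0_A0' {g : GL (Fin 2) R} (h : g ∈ E0 D) : (om t)⁻¹ * g * om t ∈ A0 D := by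
  refine ⟨E_bd' D ht h.1, ?_⟩
  have h1 : ((om t)⁻¹ * g * om t)⁻¹ = (om t)⁻¹ * g⁻¹ * om t := by group
  rw [h1]
  exact E_bd' D ht h.2

theorem T0_conj {g : GL (Fin 2) R} (h : g ∈ T0 D) : om t * g * (om t)⁻¹ ∈ T0 D := by
  induction h using Subgroup.closure_induction with
  | mem x h =>
    rcases h with h | h
    · exact D.E0_le (A0_E0 D ht h)
    · exact D.A0_le (E0_A0 D ht h)
  | one =>
    rw [mul_one, mul_inv_cancel]
    exact one_mem _
  | mul x y _ _ h1 h2 =>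
    have h3 := mul_mem h1 h2
    have h4 : om t * x * (om t)⁻¹ * (om t * y * (om t)⁻¹) = om t * (x * y) * (om t)⁻¹ := by group
    rwa [h4] at h3
  | inv x _ h1 =>
    have h3 := inv_mem h1
    have h4 : (om t * x * (om t)⁻¹)⁻¹ = om t * x⁻¹ * (om t)⁻¹ := by group
    rwa [h4] at h3

theorem T0_conj' {g : GL (Fin 2) R} (h : g ∈ T0 D) : (om t)⁻¹ * g * om t ∈ T0 D := by
  induction h using Subgroup.closure_induction with
  | mem x h =>
    rcases h with h | h
    · exact D.E0_le (A0_E0' D ht h)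
    · exact D.A0_le (E0_A0' D ht h)
  | one =>
    rw [mul_one, inv_mul_cancel]
    exact one_mem _
  | mul x y _ _ h1 h2 =>
    have h3 := mul_mem h1 h2
    have h4 : (om t)⁻¹ * x * om t * ((om t)⁻¹ * y * om t) = (om t)⁻¹ * (x * y) * om t := by group
    rwa [h4] at h3
  | inv x _ h1 =>
    have h3 := inv_mem h1
    have h4 : ((om t)⁻¹ * x * om t)⁻¹ = (om t)⁻¹ * x⁻¹ * om t := by group
    rwa [h4] at h3

theorem hier_E0 (h : Hier B (A0 D)) : Hier B (E0 D) := by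
  refine hier_sub h _ (MonoidHom.mk' (fun e : E0 D => (⟨_, E0_A0 D ht e.2⟩ : A0 D)) ?_) ?_
  · intro u v
    refine Subtype.ext ?_
    show om t * (u.1 * v.1) * (om t)⁻¹ = (om t * u.1 * (om t)⁻¹) * (om t * v.1 * (om t)⁻¹)
    group
  · intro u v huv
    have h3 : om t * u.1 * (om t)⁻¹ = om t * v.1 * (om t)⁻¹ := congrArg Subtype.val huv
    exact Subtype.ext (mul_left_cancel (mul_right_cancel h3))

theorem hier_T0 (h : Hier B (GL (Fin 2) (ringO D))) : Hier B (T0 D) := by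
  have hA := hier_A0 h
  refine hier_of_deg D.deg ?_ ?_
  · exact hier_sub hA _ (MonoidHom.mk' (fun g : (A0 D).subgroupOf (T0 D) => (⟨g.1.1, g.2⟩ : A0 D))
      fun _ _ => rfl) fun x y hxy => Subtype.ext (Subtype.ext (congrArg
        (fun z : A0 D => (z : GL (Fin 2) R)) hxy))
  · exact hier_sub (hier_E0 D ht hA) _ (MonoidHom.mk' (fun g : (E0 D).subgroupOf (T0 D) =>
      (⟨g.1.1, g.2⟩ : E0 D)) fun _ _ => rfl) fun x y hxy => Subtype.ext (Subtype.ext (congrArg
        (fun z : E0 D => (z : GL (Fin 2) R)) hxy))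

omit D ht in
theorem om_sq (t : Rˣ) : (om t * om t).1 = !![t.1, 0; 0, t.1] := by
  ext i j
  have h1 : (om t * om t).1 i j = (!![0, t.1; 1, 0] : Matrix (Fin 2) (Fin 2) R) i 0 *
      (!![0, t.1; 1, 0] : Matrix (Fin 2) (Fin 2) R) 0 j +
        (!![0, t.1; 1, 0] : Matrix (Fin 2) (Fin 2) R) i 1 *
      (!![0, t.1; 1, 0] : Matrix (Fin 2) (Fin 2) R) 1 j := mul_ent _ _ i j
  rw [h1]
  fin_cases i <;> fin_cases j <;> simp

omit D ht in
theorem om_pow (t : Rˣ) (n : ℕ) : (((om t * om t) ^ n : GL (Fin 2) R)).1 =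
    !![(t.1) ^ n, 0; 0, t.1 ^ n] := by
  induction n with
  | zero =>
    rw [pow_zero]
    ext i j
    fin_cases i <;> fin_cases j <;> simp
  | succ n ih =>
    rw [pow_succ]
    ext i j
    rw [mul_ent, ih, om_sq, pow_succ]
    fin_cases i <;> fin_cases j <;> simp

omit D ht in
theorem om_inv_pow (t : Rˣ) (n : ℕ) : ((((om t * om t)⁻¹) ^ n : GL (Fin 2) R)).1 =
    !![((t⁻¹).1) ^ n, 0; 0, ((t⁻¹).1) ^ n] := by
  have h1 : ((om t * om t)⁻¹ : GL (Fin 2) R).1 = !![(t⁻¹).1, 0; 0, (t⁻¹).1] := by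
    have h2 : ∀ i j, ((om t * om t)⁻¹ : GL (Fin 2) R).1 i j =
        (!![0, 1; (t⁻¹).1, 0] : Matrix (Fin 2) (Fin 2) R) i 0 *
      (!![0, 1; (t⁻¹).1, 0] : Matrix (Fin 2) (Fin 2) R) 0 j +
        (!![0, 1; (t⁻¹).1, 0] : Matrix (Fin 2) (Fin 2) R) i 1 *
      (!![0, 1; (t⁻¹).1, 0] : Matrix (Fin 2) (Fin 2) R) 1 j := by
      intro i j
      rw [_root_.mul_inv_rev]
      exact mul_ent _ _ i j
    ext i j
    rw [h2]
    fin_cases i <;> fin_cases j <;> simp
  induction n with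
  | zero =>
    rw [pow_zero]
    ext i j
    fin_cases i <;> fin_cases j <;> simp
  | succ n ih =>
    rw [pow_succ]
    ext i j
    rw [mul_ent, ih, h1, pow_succ]
    fin_cases i <;> fin_cases j <;> simp

theorem t_inv_pow (n : ℕ) : ((t⁻¹).1) ^ n ∈ F (-(n : ℤ)) := by
  induction n with
  | zero => simpa using D.one
  | succ n ih =>
    rw [pow_succ]
    exact D.mul' ih ht.inv (by push_cast; omega)

theorem om_not (n : ℕ) (hn : 0 < n) : ((om t * om t)⁻¹) ^ n ∉ T0 D := by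
  intro h
  have h1 : Bd F 0 (((om t * om t)⁻¹) ^ n) := by
    intro i j
    have h2 := D.mono _ _ (by omega : -(n : ℤ) ≤ 0) (t_inv_pow D ht n)
    rw [om_inv_pow]
    fin_cases i <;> fin_cases j
    · exact h2
    · exact (F 0).zero_mem
    · exact (F 0).zero_mem
    · exact h2
  have h2 := D.base (g := ⟨_, h⟩) h1
  have h3 := D.not_cl h2
  apply h3
  intro i
  have h4 := D.mono _ _ (by omega : -(n : ℤ) ≤ -1) (t_inv_pow D ht n)
  show (((om t * om t)⁻¹) ^ n : GL (Fin 2) R).1 i 0 ∈ F (-1)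
  rw [om_inv_pow]
  fin_cases i
  · exact h4
  · exact (F (-1)).zero_mem

/-- the group of all matrices, if it is generated by the stabilizers and the exchange -/
theorem hier_GL (h : InheritBC B) (hO : Hier B (GL (Fin 2) (ringO D)))
    (hP : T0 D ⊔ Subgroup.zpowers (om t) = ⊤) : Hier B (GL (Fin 2) R) := by
  have hN : (T0 D).Normal := by
    rw [← Subgroup.normalizer_eq_top_iff, eq_top_iff, ← hP, sup_le_iff, Subgroup.zpowers_le]
    refine ⟨Subgroup.le_normalizer, ?_⟩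
    rw [Subgroup.mem_normalizer_iff]
    intro g
    refine ⟨fun hg => T0_conj D ht hg, fun hg => ?_⟩
    have h1 := T0_conj' D ht hg
    have h2 : (om t)⁻¹ * (om t * g * (om t)⁻¹) * om t = g := by group
    rwa [h2] at h1
  have hex : ∀ x : GL (Fin 2) R, ∃ n : ℤ, ((om t) ^ n)⁻¹ * x ∈ T0 D := by
    intro x
    have hx : x ∈ T0 D ⊔ Subgroup.zpowers (om t) := by rw [hP]; exact Subgroup.mem_top x
    rw [sup_comm, Subgroup.mem_sup_of_normal_right] at hx
    obtain ⟨y, hy, z, hz, rfl⟩ := hx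
    obtain ⟨n, rfl⟩ := Subgroup.mem_zpowers_iff.1 hy
    exact ⟨n, by rwa [inv_mul_cancel_left]⟩
  have hno : ∀ n : ℤ, (om t) ^ n ∈ T0 D → n = 0 := by
    intro n hn
    by_contra hne
    have h1 : ∀ m : ℕ, 0 < m → (om t) ^ (-(m : ℤ)) ∉ T0 D := by
      intro m hm hmem
      apply om_not D ht m hm
      have h2 := mul_mem hmem hmem
      have h3 : (om t) ^ (-(m : ℤ)) * (om t) ^ (-(m : ℤ)) = ((om t * om t)⁻¹) ^ m := by
        rw [← _root_.zpow_add, ← pow_two, ← zpow_natCast, ← zpow_natCast, ← _root_.zpow_neg_one, ← _root_.zpow_mul,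
          ← _root_.zpow_mul]
        congr 1
        push_cast
        ring
      rwa [h3] at h2
    rcases lt_or_gt_of_ne hne with h2 | h2
    · apply h1 n.natAbs (by omega)
      have h3 : (-(n.natAbs : ℤ)) = n := by omega
      rwa [h3]
    · apply h1 n.natAbs (by omega)
      have h3 : (-(n.natAbs : ℤ)) = -n := by omega
      rw [h3, _root_.zpow_neg]
      exact inv_mem hn
  refine Hier.ext _ (T0 D) (hier_T0 D ht hO) (W_solv h _ (Group.isSolvable_of_comm ?_)) ?_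
  · have key : ∀ q : GL (Fin 2) R ⧸ T0 D, ∃ n : ℤ, q = ((om t : GL (Fin 2) R) : GL (Fin 2) R ⧸ T0 D) ^ n := by
      intro q
      obtain ⟨x, rfl⟩ := QuotientGroup.mk_surjective q
      obtain ⟨n, hn⟩ := hex x
      refine ⟨n, ?_⟩
      rw [← QuotientGroup.mk_zpow, eq_comm, QuotientGroup.eq]
      exact hn
    intro a b
    obtain ⟨n, rfl⟩ := key a
    obtain ⟨m, rfl⟩ := key b
    rw [← _root_.zpow_add, ← _root_.zpow_add, add_comm]
  · intro x n hn hx
    obtain ⟨m, hm⟩ := hex x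
    have h1 : ((om t : GL (Fin 2) R) : GL (Fin 2) R ⧸ T0 D) ^ m = (x : GL (Fin 2) R ⧸ T0 D) := by
      rw [← QuotientGroup.mk_zpow, QuotientGroup.eq]
      exact hm
    have h2 : ((om t ^ (m * n) : GL (Fin 2) R) : GL (Fin 2) R ⧸ T0 D) = 1 := by
      rw [QuotientGroup.mk_zpow, _root_.zpow_mul, h1, zpow_natCast, ← QuotientGroup.mk_pow,
        QuotientGroup.eq_one_iff]
      exact hx
    rw [QuotientGroup.eq_one_iff] at h2
    have h3 := hno _ h2
    have h4 : m = 0 := by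
      rcases mul_eq_zero.1 h3 with h4 | h4
      · exact h4
      · omega
    rw [h4, zpow_zero, inv_one, one_mul] at hm
    exact hm

end unif

end Pool.Agent.H86.LP
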